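import Pool.Agent.Y560.TF.GeS

/-!
Project TF: base change inside a class (`S_BC`).
-/

set_option autoImplicit false
set_option linter.unusedSectionVars false

namespace Pool.Agent.Y306.TFBC

open Pool.Agent.Y560.TF.Ge

variable {Γ X : Type} [Group Γ] [PartialOrder X] [MulAction Γ X] [Tr Γ X]

/-- (G) -/
theorem gg {y s0 s : X} (hs : ¬ IN Γ y s0 s) {α β : Γ} (h : SL Γ y (α • s0) (β • s0)) :
    α • s0 ≤ s ↔ β • s0 ≤ s := by
  constructor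
  · intro h1
    by_contra h2
    exact hs ⟨α, β, h, h1, h2⟩
  · intro h1
    by_contra h2
    exact hs ⟨β, α, h.symm, h1, h2⟩

/-- (P0), when the cut of `u'` is contained in the cut of `u` -/
theorem p0_aux (h3 : S_CUT) {y s0 u u' : X} (h : SL Γ y u u') (hD : DD Γ y s0)
    (hu : IN Γ y s0 u) (hu' : IN Γ y s0 u') (hP : ∀ r, r ≤ u' → DD Γ y r → r ≤ u) :
    ∃ α β : Γ, SL Γ y (α • s0) (β • s0) ∧ α • s0 ≤ u ∧ α • s0 ≤ u' ∧ ¬ β • s0 ≤ u ∧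
      ¬ β • s0 ≤ u' := by
  obtain ⟨a, b, hab, ha, hb⟩ := hu
  obtain ⟨a', b', hab', ha', hb'⟩ := hu'
  by_cases h1 : b' • s0 ≤ u
  · by_cases h2 : a • s0 ≤ u'
    · exact ⟨a, b, hab, ha, h2, hb, fun h4 => hb (hP _ h4 (hD.smul b))⟩
    · have h5 := ((h3 Γ X y u u' h.toRL).2 (a • s0) ha (hD.smul a) h2).2 (b' • s0) h1
        (hD.smul b') hb'
      exact ⟨a', b, hab'.trans (h5.symm.trans hab), hP _ ha' (hD.smul a'), ha', hb,
        fun h4 => hb (hP _ h4 (hD.smul b))⟩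
  · exact ⟨a', b', hab', hP _ ha' (hD.smul a'), ha', h1, hb'⟩

/-- (P0) -/
theorem p0 (h3 : S_CUT) {y s0 u u' : X} (h : SL Γ y u u') (hD : DD Γ y s0)
    (hu : IN Γ y s0 u) (hu' : IN Γ y s0 u') :
    ∃ α β : Γ, SL Γ y (α • s0) (β • s0) ∧ α • s0 ≤ u ∧ α • s0 ≤ u' ∧ ¬ β • s0 ≤ u ∧
      ¬ β • s0 ≤ u' := by
  rcases (h3 Γ X y u u' h.toRL).1 with h1 | h1
  · obtain ⟨α, β, k1, k2, k3, k4, k5⟩ := p0_aux h3 h.symm hD hu' hu h1
    exact ⟨α, β, k1, k3, k2, k5, k4⟩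
  · exact p0_aux h3 h hD hu hu' h1

/-- The data of type I. -/
structure Dat (y s0 u u' : X) (α β : Γ) : Prop where
  D : DD Γ y s0
  sl : SL Γ y (α • s0) (β • s0)
  pu : α • s0 ≤ u
  pu' : α • s0 ≤ u'
  qu : ¬ β • s0 ≤ u
  qu' : ¬ β • s0 ≤ u'

theorem Dat.symm {y s0 u u' : X} {α β : Γ} (h : Dat y s0 u u' α β) : Dat y s0 u' u α β :=
  ⟨h.D, h.sl, h.pu', h.pu, h.qu', h.qu⟩

theorem Dat.le {y s0 u u' : X} {α β : Γ} (h : Dat y s0 u u' α β) : α • s0 ≤ β • s0 := by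
  rcases h.sl.cmp (h.D.smul α) le_rfl with h1 | h1
  · exact absurd (h1.trans h.pu) h.qu
  · exact h1

/-- translates of the two elements have the same label -/
theorem Dat.slm {y s0 u u' : X} {α β : Γ} (h : Dat y s0 u u' α β) (γ : Γ) :
    SL Γ y ((γ * α) • s0) ((γ * β) • s0) := by
  rw [mul_smul, mul_smul]
  exact h.sl.smul γ

/-- (G) for the pair -/
theorem Dat.g {y s0 u u' : X} {α β : Γ} (h : Dat y s0 u u' α β) {s : X} (hs : ¬ IN Γ y s0 s)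
    (γ : Γ) : γ • α • s0 ≤ s ↔ γ • β • s0 ≤ s := by
  rw [← mul_smul, ← mul_smul]
  exact gg hs (h.slm γ)

/-- (J) -/
theorem Dat.j {y s0 u u' : X} {α β : Γ} (h : Dat y s0 u u' α β) {s s' : X}
    (hs : ¬ IN Γ y s0 s) (hss : SL Γ u s s') (γ : Γ) (h1 : γ • α • s0 ≤ s) :
    γ • α • s0 ≤ s' := by
  have h2 : γ • β • s0 ≤ s := (h.g hs γ).1 h1
  have h3 : γ • β • s0 = (γ * β * α⁻¹) • (α • s0) := by
    rw [← mul_smul, ← mul_smul]
    congr 1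
    group
  have h4 : γ • β • s0 ≤ (γ * β * α⁻¹) • u := by
    rw [h3]
    exact sle.2 h.pu
  obtain ⟨r, hr1, hr2, hr3⟩ := (hss.d (γ * β * α⁻¹) γ).1
    ⟨γ • β • s0, h2, h4, fun h5 => h.qu (sle.1 h5)⟩
  have h5 : γ • α • s0 ≤ (γ * β * α⁻¹) • u := (sle.2 h.le).trans h4
  rcases cmp Γ hr2 h5 with h6 | h6
  · exact absurd (h6.trans (sle.2 h.pu)) hr3
  · exact h6.trans hr1

/-- (B1) -/
theorem Dat.b1 {y s0 u u' : X} {α β : Γ} (h : Dat y s0 u u' α β) {t r : X} (γ : Γ)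
    (ht : ¬ γ • α • s0 ≤ t) (hr : r ≤ t) (hr' : r ≤ γ • u') : r ≤ γ • α • s0 := by
  rcases cmp Γ hr' (sle.2 h.pu' : γ • α • s0 ≤ γ • u') with h6 | h6
  · exact h6
  · exact absurd (h6.trans hr) ht

/-- (B2), one half -/
theorem Dat.b2 {y s0 u u' : X} {α β : Γ} (h : Dat y s0 u u' α β) {t : X} (γ δ : Γ)
    (hI : ¬ IN Γ y s0 t) (ht : ¬ γ • α • s0 ≤ t)
    (hr : ∃ r, r ≤ t ∧ r ≤ γ • u' ∧ ¬ r ≤ δ • u') :
    ∃ r, r ≤ t ∧ r ≤ γ • u ∧ ¬ r ≤ δ • u := by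
  obtain ⟨r, hr1, hr2, hr3⟩ := hr
  have h1 := h.b1 γ ht hr1 hr2
  by_cases h2 : r ≤ δ • u
  · have h3 : δ • α • s0 ≤ r := by
      rcases cmp Γ h2 (sle.2 h.pu : δ • α • s0 ≤ δ • u) with h6 | h6
      · exact absurd (h6.trans (sle.2 h.pu')) hr3
      · exact h6
    have h4 : δ • β • s0 ≤ t := (h.g hI δ).1 (h3.trans hr1)
    have h5 : DD Γ y (γ • α • s0) := (h.D.smul α).smul γ
    have h6 : SL Γ y (δ • α • s0) (δ • β • s0) := h.sl.smul δ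
    rcases h6.cmp h5 (h3.trans h1) with h7 | h7
    · exact ⟨_, h4, h7.trans (sle.2 h.pu), fun h8 => h.qu (sle.1 h8)⟩
    · exact absurd (h7.trans h4) ht
  · exact ⟨r, hr1, h1.trans (sle.2 h.pu), h2⟩

/-- one half of (e) and (d) -/
theorem Dat.ed {y s0 u u' : X} {α β : Γ} (h : Dat y s0 u u' α β) {s s' : X}
    (hs : ¬ IN Γ y s0 s) (hs' : ¬ IN Γ y s0 s') (hss : SL Γ u s s') :
    (∀ γ : Γ, (∃ r, r ≤ s ∧ r ≤ γ • u') → ∃ r, r ≤ s' ∧ r ≤ γ • u') ∧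
    ∀ γ δ : Γ, (∃ r, r ≤ s ∧ r ≤ γ • u' ∧ ¬ r ≤ δ • u') →
      ∃ r, r ≤ s' ∧ r ≤ γ • u' ∧ ¬ r ≤ δ • u' := by
  -- case A
  have hA : ∀ γ : Γ, γ • α • s0 ≤ s → ∀ r, r ≤ s → r ≤ γ • u' → r ≤ s' := by
    intro γ h1 r hr1 hr2
    have h2 := (h.g hs γ).1 h1
    have h3 := (h.g hs' γ).1 (h.j hs hss γ h1)
    rcases cmp Γ hr1 h2 with h4 | h4
    · exact h4.trans h3
    · exact absurd (sle.1 (h4.trans hr2)) h.qu'
  have hB : ∀ γ : Γ, ¬ γ • α • s0 ≤ s → ¬ γ • α • s0 ≤ s' := fun γ h1 h2 =>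
    h1 (h.j hs' hss.symm γ h2)
  constructor
  · rintro γ ⟨r, hr1, hr2⟩
    by_cases h1 : γ • α • s0 ≤ s
    · exact ⟨r, hA γ h1 r hr1 hr2, hr2⟩
    · have h2 := h.b1 γ h1 hr1 hr2
      obtain ⟨r1, k1, k2⟩ := (hss.e γ).1 ⟨r, hr1, h2.trans (sle.2 h.pu)⟩
      exact ⟨r1, k1, (h.symm.b1 γ (hB γ h1) k1 k2).trans (sle.2 h.pu')⟩
  · intro γ δ hr
    by_cases h1 : γ • α • s0 ≤ s
    · obtain ⟨r, hr1, hr2, hr3⟩ := hr
      exact ⟨r, hA γ h1 r hr1 hr2, hr2, hr3⟩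
    · exact h.symm.b2 γ δ hs' (hB γ h1) ((hss.d γ δ).1 (h.b2 γ δ hs h1 hr))

/-- (F1) in type I -/
theorem Dat.f1 {y s0 u u' : X} {α β : Γ} (h : Dat y s0 u u' α β) {s s' : X}
    (hs : ¬ IN Γ y s0 s) (hs' : ¬ IN Γ y s0 s') (hss : SL Γ u s s')
    (hM : ∀ w, ¬ IN Γ y s0 w → ∀ γ : Γ, (γ • u ≤ w ↔ γ • u' ≤ w) ∧ (w ≤ γ • u ↔ w ≤ γ • u')) :
    SL Γ u' s s' := by
  refine ⟨⟨fun γ => ?_, fun γ => ⟨(h.ed hs hs' hss).1 γ, (h.ed hs' hs hss.symm).1 γ⟩,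
    fun γ δ => ⟨(h.ed hs hs' hss).2 γ δ, (h.ed hs' hs hss.symm).2 γ δ⟩⟩, fun γ => ?_⟩
  · rw [← (hM s hs γ).1, ← (hM s' hs' γ).1]
    exact hss.a γ
  · rw [← (hM s hs γ).2, ← (hM s' hs' γ).2]
    exact hss.b γ

theorem half (h1 : S_EQV) (h2 : S_TYP) (h3 : S_CUT) (h4 : S_CL) (h5 : S_M1)
    {y z u u' v : X} (hu : u ∈ OB Γ y z) (hu' : u' ∈ OB Γ y z)
    (hl : SL Γ y u u') (hv : v ∉ OB Γ y z) : OB Γ u v ⊆ OB Γ u' v := by
  obtain ⟨e1, e2, e3, -, -⟩ := h1 Γ X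
  obtain ⟨t1, t2, t3, t4, t5, t6⟩ := h2 Γ X y z
  have hF0 : ∀ w ∈ OB Γ u v, w ∉ OB Γ y z := by
    intro w hw hwE
    have k1 : OB Γ u w = OB Γ u v := e2 u v w hw
    exact hv (h4 Γ X y z u w hu hwE (k1 ▸ e1 u v))
  have hM : ∀ w, w ∉ OB Γ y z → ∀ γ : Γ,
      (γ • u ≤ w ↔ γ • u' ≤ w) ∧ (w ≤ γ • u ↔ w ≤ γ • u') := by
    intro w hw γ
    have k1 : γ • u ∈ OB Γ y z := (e3 y z u γ).2 hu
    have k2 : γ • u' ∈ OB Γ y z := (e3 y z u' γ).2 hu'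
    obtain ⟨k3, k4⟩ := h5 Γ X y z (γ • u) (γ • u') w k1 k2 (hl.smul γ) hw
    have n1 : γ • u ≠ w := fun h => hw (h ▸ k1)
    have n2 : γ • u' ≠ w := fun h => hw (h ▸ k2)
    rw [← lt_iff_le_and_ne.trans (and_iff_left n1), ← lt_iff_le_and_ne.trans (and_iff_left n2),
      ← lt_iff_le_and_ne.trans (and_iff_left n1.symm),
      ← lt_iff_le_and_ne.trans (and_iff_left n2.symm)]
    exact ⟨k3, k4⟩
  -- the two facts about the elements outside of the class which remain to be proved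
  suffices hmain : (∀ s s', s ∉ OB Γ y z → s' ∉ OB Γ y z → SL Γ u s s' → SL Γ u' s s') ∧
      (∀ r t, r ∈ OB Γ y z → r ≤ t → t ∉ OB Γ y z → DD Γ u r) ∨ u = u' by
    rcases hmain with ⟨hF1, hH⟩ | rfl
    · intro t ht
      have htE := hF0 t ht
      rcases mem_OB.1 ht with hi | ⟨γ, r, k1, k2, k3⟩ | ⟨s, k1, k2, k3⟩
      · exact mem_OB.2 (Or.inl hi)
      · have hrE : r ∉ OB Γ y z := fun hr => k3 (hH r t hr k2 htE)
        refine mem_OB.2 (Or.inr (Or.inl ⟨γ, r, k1, k2, ?_⟩))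
        rintro ⟨δ, hδ⟩
        exact k3 ⟨δ, ((hM r hrE δ).2).2 hδ⟩
      · have hsE : s ∉ OB Γ y z := by
          intro hs
          have k4 : IN Γ u s s := (h2 Γ X u v).2.2.2.1 s v k1 k2
          exact hv (h4 Γ X y z u s hu hs (mem_OB.2 (Or.inr (Or.inr ⟨s, k1, k4, k2⟩))))
        have hsE' : ∀ γ : Γ, γ • s ∉ OB Γ y z := fun γ h => hsE ((e3 y z s γ).1 h)
        have hIN : ∀ w, IN Γ u s w → IN Γ u' s w := by
          rintro w ⟨a, b, m1, m2, m3⟩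
          exact ⟨a, b, hF1 _ _ (hsE' a) (hsE' b) m1, m2, m3⟩
        refine mem_OB.2 (Or.inr (Or.inr ⟨s, ?_, hIN _ k2, hIN _ k3⟩))
        obtain ⟨δ, hδ⟩ := k1
        exact ⟨δ, ((hM s hsE δ).2).1 hδ⟩
    · exact fun t ht => ht
  have hHD : ∀ r t, r ∈ OB Γ y z → r ≤ t → t ∉ OB Γ y z → DD Γ y r := by
    intro r t hr hrt ht
    by_contra hn
    apply ht
    rw [← e2 y z r hr]
    exact mem_OB.2 (Or.inr (Or.inl ⟨1, r, by rw [one_smul], hrt, hn⟩))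
  by_cases hI : ∃ s, DD Γ y s ∧ IN Γ y s z
  · left
    obtain ⟨s0, hD, hs0⟩ := hI
    have hE := t1 s0 hD hs0
    have hE' : ∀ w, w ∈ OB Γ y z ↔ IN Γ y s0 w := by
      intro w; rw [hE]; exact Iff.rfl
    obtain ⟨α, β, m1, m2, m3, m4, m5⟩ := p0 h3 hl hD ((hE' u).1 hu) ((hE' u').1 hu')
    have hdat : Dat y s0 u u' α β := ⟨hD, m1, m2, m3, m4, m5⟩
    constructor
    · intro s s' hs hs' hss
      exact hdat.f1 (fun h => hs ((hE' s).2 h)) (fun h => hs' ((hE' s').2 h)) hss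
        (fun w hw γ => hM w (fun h => hw ((hE' w).1 h)) γ)
    · intro r t hr hrt ht
      have k1 := hHD r t hr hrt ht
      obtain ⟨a, b, n1, n2, n3⟩ := (hE' r).1 hr
      have n4 := n1.cmp_lt k1 n2 n3
      refine ⟨b * α⁻¹, n4.le.trans ?_⟩
      have n5 : b • s0 = (b * α⁻¹) • (α • s0) := by
        rw [← mul_smul]; congr 1; group
      rw [n5]
      exact sle.2 m2
  · by_cases hO : DD Γ y z
    · right
      have hE := t2 hO hI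
      rw [hE] at hu hu'
      obtain ⟨a, rfl⟩ := hu
      obtain ⟨b, rfl⟩ := hu'
      by_contra hne
      exact hI ⟨z, hO, t6 a b z hO hl hne⟩
    · left
      have hE := t3 hO hI
      have hND : ∀ r, r ∈ OB Γ y z → ¬ DD Γ y r := by
        intro r hr hd
        rw [hE] at hr
        obtain ⟨γ, r', k1, k2, k3⟩ := hr
        exact k3 (hd.le k2)
      have hH : ∀ r t, r ≤ t → t ∉ OB Γ y z → r ∉ OB Γ y z := fun r t hrt ht hr =>
        hND r hr (hHD r t hr hrt ht)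
      constructor
      · intro s s' hs hs' hss
        refine ⟨⟨fun γ => ?_, fun γ => ?_, fun γ δ => ?_⟩, fun γ => ?_⟩
        · rw [← (hM s hs γ).1, ← (hM s' hs' γ).1]
          exact hss.a γ
        · have k : ∀ w, w ∉ OB Γ y z → ((∃ r, r ≤ w ∧ r ≤ γ • u') ↔ ∃ r, r ≤ w ∧ r ≤ γ • u) :=
            fun w hw => exists_congr fun r => and_congr_right fun hr =>
              ((hM r (hH r w hr hw) γ).2).symm
          rw [k s hs, k s' hs']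
          exact hss.e γ
        · have k : ∀ w, w ∉ OB Γ y z → ((∃ r, r ≤ w ∧ r ≤ γ • u' ∧ ¬ r ≤ δ • u') ↔
              ∃ r, r ≤ w ∧ r ≤ γ • u ∧ ¬ r ≤ δ • u) :=
            fun w hw => exists_congr fun r => and_congr_right fun hr =>
              and_congr ((hM r (hH r w hr hw) γ).2).symm
                (not_congr ((hM r (hH r w hr hw) δ).2).symm)
          rw [k s hs, k s' hs']
          exact hss.d γ δ
        · rw [← (hM s hs γ).2, ← (hM s' hs' γ).2]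
          exact hss.b γ
      · intro r t hr hrt ht
        exact absurd hr (hH r t hrt ht)

/-- Base change inside a class. -/
theorem t_BC (h1 : S_EQV) (h2 : S_TYP) (h3 : S_CUT) (h4 : S_CL) (h5 : S_M1) : S_BC := by
  intro Γ X _ _ _ _ y z u u' v _ hu hu' hl hv
  exact Set.Subset.antisymm (half h1 h2 h3 h4 h5 hu hu' hl hv)
    (half h1 h2 h3 h4 h5 hu' hu hl.symm hv)

end Pool.Agent.Y306.TFBC
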