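import Pool.Agent.Y306.TF

set_option autoImplicit false

open MeasureTheory Complex Filter Topology Set AddCircle
open scoped ENNReal

namespace Pool.Agent.Y306

noncomputable section

instance : Fact ((0 : ℝ) < 1) := ⟨zero_lt_one⟩

/-- Diophantine condition for a unimodular number. -/
structure Dio (ω : ℂ) (c : ℝ) : Prop where
  norm_eq : ‖ω‖ = 1
  pos : 0 < c
  bound : ∀ n : ℕ, 1 ≤ n → c / n ≤ ‖1 - ω ^ n‖

/-- `Λ(x) = ∑ x^n / (n (1 - ω^n))` -/
def Lam (ω x : ℂ) : ℂ := ∑' n : ℕ, x ^ n / (n * (1 - ω ^ n))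

lemma Lam_term_le {ω : ℂ} {c : ℝ} (h : Dio ω c) (x : ℂ) (n : ℕ) :
    ‖x ^ n / (n * (1 - ω ^ n))‖ ≤ ‖x‖ ^ n / c := by
  rcases Nat.eq_zero_or_pos n with rfl | hn
  · simp [h.pos.le]
  · have h1 := h.bound n hn
    have hc := h.pos
    have hn' : (0 : ℝ) < n := by exact_mod_cast hn
    rw [norm_div, norm_mul, norm_pow, Complex.norm_natCast]
    have h2 : c ≤ n * ‖1 - ω ^ n‖ := by
      rw [div_le_iff₀ hn'] at h1
      linarith
    exact div_le_div_of_nonneg_left (by positivity) hc h2

lemma Lam_summable {ω : ℂ} {c : ℝ} (h : Dio ω c) {x : ℂ} (hx : ‖x‖ < 1) :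
    Summable fun n : ℕ => x ^ n / (n * (1 - ω ^ n)) := by
  refine Summable.of_norm_bounded (g := fun n => ‖x‖ ^ n / c) ?_ (Lam_term_le h x)
  exact (summable_geometric_of_lt_one (norm_nonneg _) hx).div_const c

lemma Lam_sub {ω : ℂ} {c : ℝ} (h : Dio ω c) {x : ℂ} (hx : ‖x‖ < 1) :
    Lam ω x - Lam ω (ω * x) = -Complex.log (1 - x) := by
  have hx' : ‖ω * x‖ < 1 := by rwa [norm_mul, h.norm_eq, one_mul]
  have h1 := (Lam_summable h hx).hasSum.sub (Lam_summable h hx').hasSum
  have h2 := Complex.hasSum_taylorSeries_neg_log hx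
  refine h1.unique (h2.congr_fun ?_)
  intro n
  rcases Nat.eq_zero_or_pos n with rfl | hn
  · simp
  · have hne : (1 : ℂ) - ω ^ n ≠ 0 := by
      have h3 := h.bound n hn
      have : 0 < c / n := div_pos h.pos (by exact_mod_cast hn)
      exact norm_pos_iff.1 (lt_of_lt_of_le this h3)
    have hn' : (n : ℂ) ≠ 0 := by exact_mod_cast hn.ne'
    rw [mul_pow]
    field_simp

lemma exp_Lam {ω : ℂ} {c : ℝ} (h : Dio ω c) {x : ℂ} (hx : ‖x‖ < 1) :
    Complex.exp (-Lam ω x) = (1 - x) * Complex.exp (-Lam ω (ω * x)) := by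
  have h1 := Lam_sub h hx
  have h2 : -Lam ω x = Complex.log (1 - x) + -Lam ω (ω * x) := by linear_combination -h1
  rw [h2, Complex.exp_add, Complex.exp_log]
  intro h0
  have : x = 1 := by linear_combination -h0
  rw [this] at hx
  simp at hx

lemma continuousOn_Lam {ω : ℂ} {c : ℝ} (h : Dio ω c) {r : ℝ} (hr : r < 1) :
    ContinuousOn (Lam ω) (Metric.closedBall 0 r) := by
  rcases lt_or_ge r 0 with h0 | h0
  · rw [Metric.closedBall_eq_empty.2 h0]; exact continuousOn_empty _
  refine continuousOn_tsum (u := fun n : ℕ => r ^ n / c) ?_ ?_ ?_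
  · intro n
    fun_prop
  · exact (summable_geometric_of_lt_one h0 hr).div_const c
  · intro n x hx
    refine (Lam_term_le h x n).trans ?_
    have hx' : ‖x‖ ≤ r := by simpa using hx
    exact div_le_div_of_nonneg_right (pow_le_pow_left₀ (norm_nonneg _) hx' n) h.pos.le

lemma norm_fourier_apply (n : ℤ) (t : AddCircle (1 : ℝ)) : ‖fourier n t‖ = 1 := by
  rw [fourier_apply]; exact Circle.norm_coe _

lemma fourier_mul (m n : ℤ) (t : AddCircle (1 : ℝ)) :
    (fourier m t : ℂ) * fourier n t = fourier (m + n) t := (fourier_add (m := m) (n := n)).symm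

/-- the factors `ζ - z` are multiplicative coboundaries up to a monomial -/
lemma half_factor {ω : ℂ} {c : ℝ} (h : Dio ω c) (h' : Dio (starRingEnd ℂ ω) c)
    (a : AddCircle (1 : ℝ)) (ha : (fourier 1 a : ℂ) = ω) {z : ℂ} (hz : ‖z‖ ≠ 1) :
    ∃ K : C(AddCircle (1 : ℝ), ℂ), (∀ t, K t ≠ 0) ∧
      ((‖z‖ < 1 ∧ ∀ t, ((fourier 1 t : ℂ) - z) * K (t - a) = fourier 1 t * K t) ∨
       (1 < ‖z‖ ∧ ∀ t, ((fourier 1 t : ℂ) - z) * K (t - a) = -z * K t)) := by
  have hsub : ∀ t : AddCircle (1 : ℝ), (fourier 1 (t - a) : ℂ) = starRingEnd ℂ ω * fourier 1 t := by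
    intro t
    rw [← ha, fourier_one, fourier_one, fourier_one, sub_eq_add_neg, AddCircle.toCircle_add,
      AddCircle.toCircle_neg, Circle.coe_mul, Circle.coe_inv_eq_conj]
    ring
  have hsub' : ∀ t : AddCircle (1 : ℝ), (fourier (-1) (t - a) : ℂ) = ω * fourier (-1) t := by
    intro t
    rw [fourier_neg, hsub, fourier_neg, map_mul, Complex.conj_conj]
  have hinv : ∀ t : AddCircle (1 : ℝ), (fourier 1 t : ℂ) * fourier (-1) t = 1 := by
    intro t
    rw [fourier_mul]; simp
  rcases lt_or_gt_of_ne hz with hz1 | hz1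
  · have hc : Continuous fun t : AddCircle (1 : ℝ) => Lam ω (z * fourier (-1) t) := by
      have h1 := continuousOn_Lam h hz1
      refine h1.comp_continuous (by fun_prop) ?_
      intro t
      rw [mem_closedBall_zero_iff, norm_mul, norm_fourier_apply, mul_one]
    refine ⟨⟨fun t => Complex.exp (-Lam ω (z * fourier (-1) t)), by fun_prop⟩,
      fun t => Complex.exp_ne_zero _, Or.inl ⟨hz1, fun t => ?_⟩⟩
    simp only [ContinuousMap.coe_mk]
    have hx : ‖z * fourier (-1) t‖ < 1 := by rw [norm_mul, norm_fourier_apply, mul_one]; exact hz1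
    rw [hsub', exp_Lam h hx, show z * (ω * fourier (-1) t) = ω * (z * fourier (-1) t) by ring]
    linear_combination (Complex.exp (-Lam ω (ω * (z * fourier (-1) t))) * z) * (hinv t)
  · have hz0 : z ≠ 0 := by
      intro h0; rw [h0] at hz1; simp at hz1; linarith
    have hz2 : ‖z⁻¹‖ < 1 := by rw [norm_inv]; exact inv_lt_one_of_one_lt₀ hz1
    have hc : Continuous fun t : AddCircle (1 : ℝ) => Lam (starRingEnd ℂ ω) (z⁻¹ * fourier 1 t) := by
      have h1 := continuousOn_Lam h' hz2
      refine h1.comp_continuous (by fun_prop) ?_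
      intro t
      rw [mem_closedBall_zero_iff, norm_mul, norm_fourier_apply, mul_one]
    refine ⟨⟨fun t => Complex.exp (-Lam (starRingEnd ℂ ω) (z⁻¹ * fourier 1 t)), by fun_prop⟩,
      fun t => Complex.exp_ne_zero _, Or.inr ⟨hz1, fun t => ?_⟩⟩
    simp only [ContinuousMap.coe_mk]
    have hx : ‖z⁻¹ * fourier 1 t‖ < 1 := by rw [norm_mul, norm_fourier_apply, mul_one]; exact hz2
    rw [hsub, exp_Lam h' hx,
      show z⁻¹ * (starRingEnd ℂ ω * fourier 1 t) = starRingEnd ℂ ω * (z⁻¹ * fourier 1 t) by ring]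
    field_simp
    ring

lemma coeff_mul (f : AddCircle (1 : ℝ) → ℂ) (k n : ℤ) :
    fourierCoeff (fun t => (fourier k t : ℂ) * f t) n = fourierCoeff f (n - k) := by
  unfold fourierCoeff
  congr 1
  funext t
  rw [smul_eq_mul, smul_eq_mul, ← mul_assoc, fourier_mul]
  congr 3
  ring

lemma coeff_shift (f : AddCircle (1 : ℝ) → ℂ) (a : AddCircle (1 : ℝ)) (n : ℤ) :
    fourierCoeff (fun t => f (t - a)) n = fourier (-n) a * fourierCoeff f n := by
  unfold fourierCoeff
  have h1 := integral_sub_right_eq_self (μ := haarAddCircle)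
    (fun t : AddCircle (1 : ℝ) => (fourier (-n) (t + a) : ℂ) • f t) a
  simp only [sub_add_cancel] at h1
  rw [h1, ← integral_const_mul]
  congr 1
  funext t
  rw [smul_eq_mul, smul_eq_mul, ← mul_assoc]
  congr 1
  rw [fourier_apply, fourier_apply, fourier_apply, smul_add, AddCircle.toCircle_add, Circle.coe_mul]
  ring

lemma memLp_mul_cont {f : AddCircle (1 : ℝ) → ℂ} (hf : MemLp f 2 haarAddCircle)
    (K : C(AddCircle (1 : ℝ), ℂ)) : MemLp (fun t => K t * f t) 2 haarAddCircle := by
  refine hf.of_le_mul (c := ‖K‖) (K.continuous.aestronglyMeasurable.mul hf.1) ?_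
  refine Eventually.of_forall fun t => ?_
  rw [norm_mul]
  exact mul_le_mul_of_nonneg_right (K.norm_coe_le_norm t) (norm_nonneg _)

lemma memLp_shift {f : AddCircle (1 : ℝ) → ℂ} (hf : MemLp f 2 haarAddCircle)
    (a : AddCircle (1 : ℝ)) : MemLp (fun t => f (t - a)) 2 haarAddCircle :=
  hf.comp_measurePreserving (measurePreserving_sub_right haarAddCircle a)

lemma coeff_toLp {f : AddCircle (1 : ℝ) → ℂ} (hf : MemLp f 2 haarAddCircle) (n : ℤ) :
    fourierBasis.repr (hf.toLp f) n = fourierCoeff f n := by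
  rw [fourierBasis_repr]
  exact congrFun (fourierCoeff_congr_ae hf.coeFn_toLp) n

lemma eq_zero_of_coeff {f : AddCircle (1 : ℝ) → ℂ} (hf : MemLp f 2 haarAddCircle)
    (h : ∀ n, fourierCoeff f n = 0) : f =ᵐ[haarAddCircle] 0 := by
  have h1 : hf.toLp f = 0 := by
    apply fourierBasis.repr.injective
    rw [map_zero]
    ext n
    rw [coeff_toLp hf n, h n]
    rfl
  have h2 := hf.coeFn_toLp
  rw [h1] at h2
  exact h2.symm.trans (Lp.coeFn_zero _ _ _)

lemma summable_coeff {f : AddCircle (1 : ℝ) → ℂ} (hf : MemLp f 2 haarAddCircle) :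
    Summable fun n : ℤ => ‖fourierCoeff f n‖ ^ 2 := by
  have h := (hasSum_sq_fourierCoeff (hf.toLp f)).summable
  refine h.congr fun n => ?_
  rw [congrFun (fourierCoeff_congr_ae hf.coeFn_toLp) n]

lemma exists_of_summable {a : ℤ → ℂ} (ha : Summable fun n : ℤ => ‖a n‖ ^ 2) :
    ∃ f : AddCircle (1 : ℝ) → ℂ, MemLp f 2 haarAddCircle ∧ ∀ n, fourierCoeff f n = a n := by
  have hm : Memℓp a 2 := by
    rw [memℓp_gen_iff (by norm_num)]
    simpa using ha
  refine ⟨fourierBasis.repr.symm ⟨a, hm⟩, Lp.memLp _, fun n => ?_⟩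
  rw [← fourierBasis_repr, LinearIsometryEquiv.apply_symm_apply]

/-- a two-term recursion has no nonzero square summable solution -/
lemma two_term {w : ℤ → ℂ} (hw : Summable fun n : ℤ => ‖w n‖ ^ 2) {x : ℂ} (hx : x ≠ 0) {y : ℤ → ℂ}
    {r : ℝ} (hr : 0 < r) (hy : ∀ n, ‖y n‖ = r) (h : ∀ n, x * w (n - 1) + y n * w n = 0) (n : ℤ) :
    w n = 0 := by
  set q : ℝ := ‖x‖ / r with hq
  have hq0 : 0 < q := div_pos (norm_pos_iff.2 hx) hr
  have h1 : ∀ n, ‖w n‖ = q * ‖w (n - 1)‖ := by
    intro n
    have h2 : y n * w n = -(x * w (n - 1)) := by linear_combination h n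
    have h3 := congrArg norm h2
    rw [norm_mul, norm_neg, norm_mul, hy] at h3
    rw [hq]
    field_simp
    linarith
  have hup : ∀ (n : ℤ) (k : ℕ), ‖w (n + k)‖ = q ^ k * ‖w n‖ := by
    intro n k
    induction k with
    | zero => simp
    | succ k ih =>
      rw [h1 (n + ((k + 1 : ℕ) : ℤ)), show n + ((k + 1 : ℕ) : ℤ) - 1 = n + k by push_cast; ring, ih]
      ring
  have hdown : ∀ (n : ℤ) (k : ℕ), ‖w n‖ = q ^ k * ‖w (n - k)‖ := by
    intro n k
    have := hup (n - k) k
    rwa [sub_add_cancel] at this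
  have hbd : ∃ C : ℝ, ∀ n, ‖w n‖ ≤ C := by
    refine ⟨√(∑' n : ℤ, ‖w n‖ ^ 2), fun n => ?_⟩
    apply Real.le_sqrt_of_sq_le
    exact hw.le_tsum n fun _ _ => by positivity
  by_contra hne
  have hpos : 0 < ‖w n‖ := norm_pos_iff.2 hne
  have t1 : Tendsto (fun k : ℕ => ‖w (n + k)‖) atTop (𝓝 0) := by
    have h2 : Summable fun k : ℕ => ‖w (n + k)‖ ^ 2 :=
      hw.comp_injective (i := fun k : ℕ => n + (k : ℤ)) fun a b hab => by simpa using hab
    have h3 := (Real.continuous_sqrt.tendsto 0).comp h2.tendsto_atTop_zero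
    rw [Real.sqrt_zero] at h3
    exact h3.congr fun k => by simp [Real.sqrt_sq (norm_nonneg _)]
  have t2 : Tendsto (fun k : ℕ => ‖w (n - k)‖) atTop (𝓝 0) := by
    have h2 : Summable fun k : ℕ => ‖w (n - k)‖ ^ 2 :=
      hw.comp_injective (i := fun k : ℕ => n - (k : ℤ)) fun a b hab => by simpa using hab
    have h3 := (Real.continuous_sqrt.tendsto 0).comp h2.tendsto_atTop_zero
    rw [Real.sqrt_zero] at h3
    exact h3.congr fun k => by simp [Real.sqrt_sq (norm_nonneg _)]
  rcases le_or_gt 1 q with h1q | h1q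
  · have : ∀ k : ℕ, ‖w n‖ ≤ ‖w (n + k)‖ := by
      intro k
      rw [hup]
      exact le_mul_of_one_le_left (norm_nonneg _) (one_le_pow₀ h1q)
    have := ge_of_tendsto' t1 this
    linarith
  · have : ∀ k : ℕ, ‖w n‖ ≤ ‖w (n - k)‖ := by
      intro k
      rw [hdown n k]
      exact mul_le_of_le_one_left (norm_nonneg _) (pow_le_one₀ hq0.le h1q.le)
    have := ge_of_tendsto' t2 this
    linarith

/-- **Main lemma.** -/
theorem circle_lemma {ω : ℂ} {c : ℝ} (h : Dio ω c) (h' : Dio (starRingEnd ℂ ω) c)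
    (al : AddCircle (1 : ℝ)) (hal : (fourier 1 al : ℂ) = ω) {A B C D : ℂ} (hA : A ≠ 0) (hB : B ≠ 0)
    (hD : D ≠ 0) (hgood : ∀ w : ℂ, w ^ 2 + C * w + A * B = 0 → ‖w‖ ≠ ‖B‖ ∧ ‖w‖ ≠ ‖D‖)
    {a : ℤ → ℂ} (ha : Summable fun n : ℤ => ‖a n‖ ^ 2)
    (hrec : ∀ n : ℤ, A * a (n + 1) + B * a (n - 1) + (C + D * fourier (-n) al) * a n = 0) :
    ∀ n, a n = 0 := by
  obtain ⟨F, hF, hFa⟩ := exists_of_summable ha
  -- the roots
  obtain ⟨s, hs⟩ : ∃ s : ℂ, s ^ 2 = C ^ 2 - 4 * A * B :=
    IsAlgClosed.exists_pow_nat_eq _ (by norm_num)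
  set z1 : ℂ := (-C + s) / (2 * B) with hz1
  set z2 : ℂ := (-C - s) / (2 * B) with hz2
  have hsum : B * (z1 + z2) = -C := by rw [hz1, hz2]; field_simp; ring
  have hprod : B * (z1 * z2) = A := by
    rw [hz1, hz2]
    field_simp
    linear_combination -hs
  clear_value z1 z2
  have hr1 : (B * z1) ^ 2 + C * (B * z1) + A * B = 0 := by
    linear_combination (B * z1) * hsum - B * hprod
  have hr2 : (B * z2) ^ 2 + C * (B * z2) + A * B = 0 := by
    linear_combination (B * z2) * hsum - B * hprod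
  have hBn : 0 < ‖B‖ := norm_pos_iff.2 hB
  have hn1 : ‖z1‖ ≠ 1 := by
    intro h0
    have := (hgood _ hr1).1
    rw [norm_mul, h0, mul_one] at this
    exact this rfl
  have hn2 : ‖z2‖ ≠ 1 := by
    intro h0
    have := (hgood _ hr2).1
    rw [norm_mul, h0, mul_one] at this
    exact this rfl
  obtain ⟨K1, hK1, hc1⟩ := half_factor h h' al hal hn1
  obtain ⟨K2, hK2, hc2⟩ := half_factor h h' al hal hn2
  -- the relation for F
  have hFs := memLp_shift hF al
  have hrel : ∀ᵐ t ∂haarAddCircle, (A * fourier (-1) t + B * fourier 1 t + C) * F t +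
      D * F (t - al) = 0 := by
    have m1 : MemLp (fun t => A * ((fourier (-1) t : ℂ) * F t)) 2 haarAddCircle :=
      (memLp_mul_cont hF (fourier (-1))).const_mul A
    have m2 : MemLp (fun t => B * ((fourier 1 t : ℂ) * F t)) 2 haarAddCircle :=
      (memLp_mul_cont hF (fourier 1)).const_mul B
    have m3 : MemLp (fun t => C * F t) 2 haarAddCircle := hF.const_mul C
    have m4 : MemLp (fun t => D * F (t - al)) 2 haarAddCircle := hFs.const_mul D
    have i1 := m1.integrable (by norm_num)
    have i2 := m2.integrable (by norm_num)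
    have i3 := m3.integrable (by norm_num)
    have i4 := m4.integrable (by norm_num)
    have hz := eq_zero_of_coeff (((m1.add m2).add m3).add m4) ?_
    · filter_upwards [hz] with t ht
      simp only [Pi.add_apply, Pi.zero_apply] at ht
      linear_combination ht
    · intro n
      rw [fourierCoeff.add ((i1.add i2).add i3) i4, fourierCoeff.add (i1.add i2) i3,
        fourierCoeff.add i1 i2]
      simp only [Pi.add_apply]
      rw [fourierCoeff.const_mul, fourierCoeff.const_mul, fourierCoeff.const_mul,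
        fourierCoeff.const_mul, coeff_mul, coeff_mul, coeff_shift, hFa, hFa, hFa]
      have := hrec n
      rw [show n - -1 = n + 1 by ring]
      linear_combination this
  -- the conjugated function
  set K : C(AddCircle (1 : ℝ), ℂ) := K1 * K2 with hK
  have hKne : ∀ t, K t ≠ 0 := fun t => mul_ne_zero (hK1 t) (hK2 t)
  have hW := memLp_mul_cont hF K
  have hWs := memLp_shift hW al
  have hkey : ∀ σ : AddCircle (1 : ℝ) → ℂ,
      (∀ t, ((fourier 1 t : ℂ) - z1) * ((fourier 1 t : ℂ) - z2) * K (t - al) = σ t * K t) →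
      ∀ᵐ t ∂haarAddCircle, B * (σ t * (K t * F t)) + D * (fourier 1 t * (K (t - al) * F (t - al))) = 0 := by
    intro σ hσ
    filter_upwards [hrel] with t ht
    have e1 : (fourier 1 t : ℂ) * fourier (-1) t = 1 := by rw [fourier_mul]; simp
    have e2 := hσ t
    have e3 : (A * fourier (-1) t + B * fourier 1 t + C) * fourier 1 t =
        B * (((fourier 1 t : ℂ) - z1) * ((fourier 1 t : ℂ) - z2)) := by
      linear_combination A * e1 + (fourier 1 t : ℂ) * hsum - hprod
    linear_combination (fourier 1 t : ℂ) * K (t - al) * ht - K (t - al) * F t * e3 - B * F t * e2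
  have hfin : (∀ n, fourierCoeff (fun t => K t * F t) n = 0) → ∀ n, a n = 0 := by
    intro h0 n
    have h1 := eq_zero_of_coeff hW h0
    have h2 : F =ᵐ[haarAddCircle] 0 := by
      filter_upwards [h1] with t ht
      rcases mul_eq_zero.1 ht with h3 | h3
      · exact absurd h3 (hKne t)
      · exact h3
    rw [← hFa n, congrFun (fourierCoeff_congr_ae h2) n]
    simp [fourierCoeff]
  have hsW := summable_coeff hW
  have hnf : ∀ n : ℤ, ‖D * (fourier n al : ℂ)‖ = ‖D‖ := by
    intro n
    rw [norm_mul, norm_fourier_apply, mul_one]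
  have hDn : 0 < ‖D‖ := norm_pos_iff.2 hD
  apply hfin
  -- coefficients of a combination
  have hcomb : ∀ (x : ℂ) (k l : ℤ), (∀ᵐ t ∂haarAddCircle,
      x * (fourier k t * (K t * F t)) + D * (fourier l t * (K (t - al) * F (t - al))) = 0) →
      ∀ n, x * fourierCoeff (fun t => K t * F t) (n - k) +
        D * fourier (-(n - l)) al * fourierCoeff (fun t => K t * F t) (n - l) = 0 := by
    intro x k l hx n
    have m1 : MemLp (fun t => x * ((fourier k t : ℂ) * (K t * F t))) 2 haarAddCircle :=
      (memLp_mul_cont hW (fourier k)).const_mul x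
    have m2 : MemLp (fun t => D * ((fourier l t : ℂ) * (K (t - al) * F (t - al)))) 2 haarAddCircle :=
      (memLp_mul_cont hWs (fourier l)).const_mul D
    have i1 := m1.integrable (by norm_num)
    have i2 := m2.integrable (by norm_num)
    have e1 := fourierCoeff.add i1 i2
    have e2 : fourierCoeff ((fun t => x * ((fourier k t : ℂ) * (K t * F t))) +
        fun t => D * ((fourier l t : ℂ) * (K (t - al) * F (t - al)))) n = 0 := by
      have : ((fun t => x * ((fourier k t : ℂ) * (K t * F t))) +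
        fun t => D * ((fourier l t : ℂ) * (K (t - al) * F (t - al)))) =ᵐ[haarAddCircle] 0 := by
        filter_upwards [hx] with t ht
        simpa using ht
      rw [congrFun (fourierCoeff_congr_ae this) n]
      simp [fourierCoeff]
    rw [e1, Pi.add_apply, fourierCoeff.const_mul, fourierCoeff.const_mul, coeff_mul,
      coeff_mul (fun t => K (t - al) * F (t - al)), coeff_shift (fun t => K t * F t)] at e2
    linear_combination e2
  have hz12 : z1 * z2 ≠ 0 := by
    intro h0
    rw [h0, mul_zero] at hprod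
    exact hA hprod.symm
  rcases hc1 with ⟨hl1, e1⟩ | ⟨hl1, e1⟩ <;> rcases hc2 with ⟨hl2, e2⟩ | ⟨hl2, e2⟩
  · -- both inside
    have h1 := hkey (fun t => fourier 2 t) (fun t => by
      have e3 := e1 t
      have e4 := e2 t
      have e5 : (fourier 2 t : ℂ) = fourier 1 t * fourier 1 t := by rw [fourier_mul]; norm_num
      simp only [hK, ContinuousMap.mul_apply]
      rw [e5]
      linear_combination ((fourier 1 t : ℂ) - z2) * K2 (t - al) * e3 + (fourier 1 t : ℂ) * K1 t * e4)
    have h2 := hcomb B 2 1 (by filter_upwards [h1] with t ht using ht)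
    intro n
    refine two_term hsW hB (r := ‖D‖) hDn (y := fun n => D * fourier (-n) al) (fun n => hnf _) ?_ n
    intro n
    have := h2 (n + 1)
    rw [show n + 1 - 2 = n - 1 by ring, show n + 1 - 1 = n by ring] at this
    exact this
  · -- z1 inside, z2 outside
    have h1 := hkey (fun t => -z2 * fourier 1 t) (fun t => by
      have e3 := e1 t
      have e4 := e2 t
      simp only [hK, ContinuousMap.mul_apply]
      linear_combination ((fourier 1 t : ℂ) - z2) * K2 (t - al) * e3 + (fourier 1 t : ℂ) * K1 t * e4)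
    have h2 := hcomb (-(B * z2)) 1 1 (by
      filter_upwards [h1] with t ht
      linear_combination ht)
    intro n
    have h3 := h2 (n + 1)
    rw [show n + 1 - 1 = n by ring] at h3
    have h4 : (-(B * z2) + D * fourier (-n) al) * fourierCoeff (fun t => K t * F t) n = 0 := by
      linear_combination h3
    rcases mul_eq_zero.1 h4 with h5 | h5
    · exfalso
      have h6 : B * z2 = D * fourier (-n) al := by linear_combination -h5
      have h7 := congrArg norm h6
      rw [hnf] at h7
      exact (hgood _ hr2).2 h7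
    · exact h5
  · -- z1 outside, z2 inside
    have h1 := hkey (fun t => -z1 * fourier 1 t) (fun t => by
      have e3 := e1 t
      have e4 := e2 t
      simp only [hK, ContinuousMap.mul_apply]
      linear_combination ((fourier 1 t : ℂ) - z2) * K2 (t - al) * e3 + (-z1 * K1 t) * e4)
    have h2 := hcomb (-(B * z1)) 1 1 (by
      filter_upwards [h1] with t ht
      linear_combination ht)
    intro n
    have h3 := h2 (n + 1)
    rw [show n + 1 - 1 = n by ring] at h3
    have h4 : (-(B * z1) + D * fourier (-n) al) * fourierCoeff (fun t => K t * F t) n = 0 := by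
      linear_combination h3
    rcases mul_eq_zero.1 h4 with h5 | h5
    · exfalso
      have h6 : B * z1 = D * fourier (-n) al := by linear_combination -h5
      have h7 := congrArg norm h6
      rw [hnf] at h7
      exact (hgood _ hr1).2 h7
    · exact h5
  · -- both outside
    have h1 := hkey (fun t => z1 * z2) (fun t => by
      have e3 := e1 t
      have e4 := e2 t
      simp only [hK, ContinuousMap.mul_apply]
      linear_combination ((fourier 1 t : ℂ) - z2) * K2 (t - al) * e3 + (-z1 * K1 t) * e4)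
    have h2 := hcomb (B * (z1 * z2)) 0 1 (by
      filter_upwards [h1] with t ht
      rw [fourier_zero]
      linear_combination ht)
    have hsneg : Summable fun n : ℤ => ‖fourierCoeff (fun t => K t * F t) (-n)‖ ^ 2 :=
      (Equiv.neg ℤ).summable_iff.2 hsW
    have h3 := two_term (w := fun n => fourierCoeff (fun t => K t * F t) (-n)) hsneg
      (mul_ne_zero hB hz12) (r := ‖D‖) hDn (y := fun n => D * fourier n al) (fun n => hnf _) (by
        intro n
        have := h2 (-n + 1)
        rw [show -n + 1 - 0 = -(n - 1) by ring, show -(-n + 1 - 1) = n by ring,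
          show -n + 1 - 1 = -n by ring] at this
        exact this)
    intro n
    have := h3 (-n)
    simpa using this

end

end Pool.Agent.Y306
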