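import Pool.Agent.Y306.Rec
import Pool.Agent.Y306.Circle

set_option autoImplicit false

open MeasureTheory Complex Filter Topology Set AddCircle FourierTransform
open scoped ENNReal

namespace Pool.Agent.Y306

noncomputable section

lemma ee_eq_one_iff (x : ℝ) : ee x = 1 ↔ ∃ n : ℤ, x = n := by
  unfold ee
  rw [Complex.exp_eq_one_iff]
  have hpi : (2 * (Real.pi : ℂ) * Complex.I) ≠ 0 := by
    simp [Real.pi_ne_zero]
  constructor
  · rintro ⟨n, hn⟩
    refine ⟨n, ?_⟩
    have h1 : (2 * (Real.pi : ℂ) * Complex.I) * x = (2 * (Real.pi : ℂ) * Complex.I) * n := by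
      rw [hn]; ring
    have h2 := mul_left_cancel₀ hpi h1
    exact_mod_cast h2
  · rintro ⟨n, rfl⟩
    exact ⟨n, by push_cast; ring⟩

lemma norm_one_sub_ee (x : ℝ) : ‖1 - ee x‖ = 2 * |Real.sin (Real.pi * x)| := by
  have h := Complex.norm_exp_I_mul_ofReal_sub_one (2 * Real.pi * x)
  have h1 : Complex.exp (Complex.I * ((2 * Real.pi * x : ℝ) : ℂ)) = ee x := by
    unfold ee; congr 1; push_cast; ring
  rw [h1] at h
  rw [norm_sub_rev, h, Real.norm_eq_abs, abs_mul, abs_two,
    show 2 * Real.pi * x / 2 = Real.pi * x by ring]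

lemma norm_one_sub_ee_ge (x : ℝ) : 4 * |x - round x| ≤ ‖1 - ee x‖ := by
  have h1 : ee x = ee (x - round x) := by
    rw [ee_sub, ee_int, inv_one, mul_one]
  rw [h1, norm_one_sub_ee]
  have h2 : |x - round x| ≤ 1 / 2 := abs_sub_round x
  have hpi := Real.pi_pos
  have h3 : |Real.pi * (x - round x)| ≤ Real.pi / 2 := by
    rw [abs_mul, abs_of_pos hpi]
    nlinarith
  have h4 := Real.mul_abs_le_abs_sin h3
  rw [abs_mul, abs_of_pos hpi] at h4
  have h5 : 2 / Real.pi * (Real.pi * |x - round x|) = 2 * |x - round x| := by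
    field_simp
  rw [h5] at h4
  linarith

lemma sqrt_two_dio {n : ℕ} (hn : 1 ≤ n) : 1 / n ≤ ‖1 - ee √2 ^ n‖ := by
  have hn' : (1 : ℝ) ≤ n := by exact_mod_cast hn
  have h1 : ee √2 ^ n = ee (n * √2) := by
    have := ee_mul_int √2 n
    push_cast at this
    rw [this, zpow_natCast]
  rw [h1]
  refine le_trans ?_ (norm_one_sub_ee_ge _)
  set m := round (n * √2) with hm
  have h2 : |(n : ℝ) * √2 - m| ≤ 1 / 2 := abs_sub_round _
  have hs : √2 ^ 2 = 2 := Real.sq_sqrt (by norm_num)
  have hs1 : √2 < 3 / 2 := by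
    rw [Real.sqrt_lt' (by norm_num)]; norm_num
  have hs0 : 0 ≤ √2 := Real.sqrt_nonneg 2
  have h3 : ((n : ℝ) * √2 - m) * (n * √2 + m) = ((2 * (n : ℤ) ^ 2 - m ^ 2 : ℤ) : ℝ) := by
    push_cast
    linear_combination (n : ℝ) ^ 2 * hs
  have h4 : (2 * (n : ℤ) ^ 2 - m ^ 2 : ℤ) ≠ 0 := by
    intro h0
    rw [h0] at h3
    push_cast at h3
    have hirr : Irrational √2 := irrational_sqrt_two
    have hnz : (n : ℝ) ≠ 0 := by positivity
    rcases mul_eq_zero.1 h3 with h5 | h5
    · apply hirr
      refine ⟨(m : ℚ) / n, ?_⟩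
      push_cast
      rw [div_eq_iff hnz]
      linarith
    · apply hirr
      refine ⟨-(m : ℚ) / n, ?_⟩
      push_cast
      rw [div_eq_iff hnz]
      linarith
  have h5 : (1 : ℝ) ≤ |((2 * (n : ℤ) ^ 2 - m ^ 2 : ℤ) : ℝ)| := by
    have := Int.one_le_abs h4
    exact_mod_cast this
  rw [← h3, abs_mul] at h5
  have h6 : |(n : ℝ) * √2 + m| ≤ 4 * n := by
    have h7 := abs_le.1 h2
    rw [abs_le]
    constructor <;> nlinarith
  have h8 : 0 ≤ |(n : ℝ) * √2 - m| := abs_nonneg _
  rw [div_le_iff₀ (by linarith)]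
  nlinarith

lemma dio_sqrt_two : Dio (ee √2) 1 where
  norm_eq := norm_ee _
  pos := one_pos
  bound _ hn := sqrt_two_dio hn

lemma dio_sqrt_two' : Dio (starRingEnd ℂ (ee √2)) 1 where
  norm_eq := by rw [RCLike.norm_conj]; exact norm_ee _
  pos := one_pos
  bound n hn := by
    have h := sqrt_two_dio hn
    rw [← map_pow]
    have : (1 : ℂ) - starRingEnd ℂ (ee √2 ^ n) = starRingEnd ℂ (1 - ee √2 ^ n) := by
      rw [map_sub, map_one]
    rw [this, RCLike.norm_conj]
    exact h

lemma fourier_ee (n : ℤ) (x : ℝ) : (fourier n (x : AddCircle (1 : ℝ)) : ℂ) = ee (n * x) := by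
  rw [fourier_coe_apply]
  unfold ee
  congr 1
  push_cast
  ring

lemma finite_quadratic {a b c : ℂ} (ha : a ≠ 0) : {w : ℂ | a * w ^ 2 + b * w + c = 0}.Finite := by
  set p : Polynomial ℂ := Polynomial.C a * Polynomial.X ^ 2 + Polynomial.C b * Polynomial.X +
    Polynomial.C c with hp
  have hne : p ≠ 0 := by
    intro h0
    have h1 : p.coeff 2 = a := by
      simp [hp, Polynomial.coeff_X, Polynomial.coeff_C]
    rw [h0, Polynomial.coeff_zero] at h1
    exact ha h1.symm
  refine (Polynomial.finite_setOfPred_isRoot hne).subset ?_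
  intro w hw
  simp only [mem_ofPred_eq] at hw ⊢
  simp only [Polynomial.IsRoot.def, hp, Polynomial.eval_add, Polynomial.eval_mul,
    Polynomial.eval_C, Polynomial.eval_pow, Polynomial.eval_X]
  exact hw

lemma countable_ee (v : ℂ) : {y : ℝ | ee (-y) = v}.Countable := by
  rcases Set.eq_empty_or_nonempty {y : ℝ | ee (-y) = v} with h | ⟨y0, hy0⟩
  · rw [h]; exact countable_empty
  · refine (countable_range (fun n : ℤ => y0 - n)).mono ?_
    intro y hy
    have h1 : ee (y0 - y) = 1 := by
      have h2 : ee (y0 - y) = ee (-y) * (ee (-y0))⁻¹ := by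
        rw [← ee_neg, ← ee_add]; congr 1; ring
      rw [h2, hy, hy0]
      exact mul_inv_cancel₀ (by rw [← hy0]; exact ee_ne _)
    obtain ⟨n, hn⟩ := (ee_eq_one_iff _).1 h1
    exact ⟨n, by simp only; linarith⟩

lemma bad_countable {c0 κ : ℂ} (hc0 : c0 ≠ 0) (hκ : κ ≠ 0) {r : ℝ} (hr : 0 < r) :
    {y : ℝ | ∃ w : ℂ, ‖w‖ = r ∧ w ^ 2 + c0 * w = κ * ee (-y)}.Countable := by
  have hfin : {w : ℂ | ‖w‖ = r ∧ ‖w‖ * ‖w + c0‖ = ‖κ‖}.Finite := by
    have hlead : (r : ℂ) ^ 2 * starRingEnd ℂ c0 ≠ 0 :=
      mul_ne_zero (pow_ne_zero _ (by exact_mod_cast hr.ne'))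
        (by simpa using hc0)
    refine (finite_quadratic (b := (r : ℂ) ^ 4 + c0 * starRingEnd ℂ c0 * (r : ℂ) ^ 2 - (‖κ‖ : ℂ) ^ 2)
      (c := c0 * (r : ℂ) ^ 4) hlead).subset ?_
    rintro w ⟨hw1, hw2⟩
    simp only [mem_ofPred_eq]
    have e1 : w * starRingEnd ℂ w = (r : ℂ) ^ 2 := by
      rw [Complex.mul_conj, Complex.normSq_eq_norm_sq, hw1]; push_cast; rfl
    have e2 : (w + c0) * (starRingEnd ℂ w + starRingEnd ℂ c0) = ((‖w + c0‖ : ℝ) : ℂ) ^ 2 := by
      rw [← map_add, Complex.mul_conj, Complex.normSq_eq_norm_sq]; push_cast; rfl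
    have e3 : (r : ℂ) * ((‖w + c0‖ : ℝ) : ℂ) = (‖κ‖ : ℂ) := by
      rw [← hw2, hw1]; push_cast; rfl
    have e4 : (r : ℂ) ^ 2 * ((w + c0) * (starRingEnd ℂ w + starRingEnd ℂ c0)) = (‖κ‖ : ℂ) ^ 2 := by
      rw [e2, ← e3]; ring
    linear_combination w * e4 - (r : ℂ) ^ 2 * (w + c0) * e1
  have hsub : {y : ℝ | ∃ w : ℂ, ‖w‖ = r ∧ w ^ 2 + c0 * w = κ * ee (-y)} ⊆
      ⋃ w ∈ {w : ℂ | ‖w‖ = r ∧ ‖w‖ * ‖w + c0‖ = ‖κ‖}, {y : ℝ | ee (-y) = (w ^ 2 + c0 * w) / κ} := by
    rintro y ⟨w, hw1, hw2⟩
    simp only [mem_iUnion, mem_ofPred_eq]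
    refine ⟨w, ⟨hw1, ?_⟩, ?_⟩
    · rw [← norm_mul, show w * (w + c0) = w ^ 2 + c0 * w by ring, hw2, norm_mul, norm_ee, mul_one]
    · rw [hw2]; field_simp
  refine Countable.mono hsub (Countable.biUnion hfin.countable fun w _ => countable_ee _)

/-- a relation in `L²` read pointwise -/
lemma rel_ae {f : H} {l : List (ℂ × ℝ × ℝ)}
    (h : (l.map fun q => q.1 • tf q.2.1 q.2.2 f).sum = 0) :
    ∀ᵐ x : ℝ, (l.map fun q => q.1 * (ee (q.2.2 * x) * f (x - q.2.1))).sum = 0 := by
  have key : ∀ l : List (ℂ × ℝ × ℝ), ((l.map fun q => q.1 • tf q.2.1 q.2.2 f).sum : H) =ᵐ[volume]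
      fun x => (l.map fun q => q.1 * (ee (q.2.2 * x) * f (x - q.2.1))).sum := by
    intro l
    induction l with
    | nil =>
      simp only [List.map_nil, List.sum_nil]
      exact Lp.coeFn_zero _ _ _
    | cons q l ih =>
      simp only [List.map_cons, List.sum_cons]
      filter_upwards [ih, Lp.coeFn_add (q.1 • tf q.2.1 q.2.2 f)
        ((l.map fun q => q.1 • tf q.2.1 q.2.2 f).sum),
        Lp.coeFn_smul q.1 (tf q.2.1 q.2.2 f), tf_coe q.2.1 q.2.2 f] with x h1 h2 h3 h4
      rw [h2, Pi.add_apply, h1, h3, Pi.smul_apply, h4, smul_eq_mul]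
  have h1 := key l
  rw [h] at h1
  filter_upwards [h1, Lp.coeFn_zero ℂ 2 (volume : Measure ℝ)] with x h2 h3
  rw [← h2, h3]; rfl

lemma rel_of_ae {f : ℝ → ℂ} (hf : MemLp f 2 volume) {l : List (ℂ × ℝ × ℝ)}
    (h : ∀ᵐ x : ℝ, (l.map fun q => q.1 * (ee (q.2.2 * x) * f (x - q.2.1))).sum = 0) :
    (l.map fun q => q.1 • tf q.2.1 q.2.2 (hf.toLp f)).sum = 0 := by
  have key : ∀ l : List (ℂ × ℝ × ℝ),
      ((l.map fun q => q.1 • tf q.2.1 q.2.2 (hf.toLp f)).sum : H) =ᵐ[volume]
      fun x => (l.map fun q => q.1 * (ee (q.2.2 * x) * f (x - q.2.1))).sum := by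
    intro l
    induction l with
    | nil =>
      simp only [List.map_nil, List.sum_nil]
      exact Lp.coeFn_zero _ _ _
    | cons q l ih =>
      simp only [List.map_cons, List.sum_cons]
      filter_upwards [ih, Lp.coeFn_add (q.1 • tf q.2.1 q.2.2 (hf.toLp f))
        ((l.map fun q => q.1 • tf q.2.1 q.2.2 (hf.toLp f)).sum),
        Lp.coeFn_smul q.1 (tf q.2.1 q.2.2 (hf.toLp f)), tf_coe q.2.1 q.2.2 (hf.toLp f),
        comp_sub_ae hf.coeFn_toLp q.2.1] with x h1 h2 h3 h4 h5
      rw [h2, Pi.add_apply, h1, h3, Pi.smul_apply, h4, smul_eq_mul, h5]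
  apply Lp.ext
  filter_upwards [key l, h, Lp.coeFn_zero ℂ 2 (volume : Measure ℝ)] with x h1 h2 h3
  rw [h1, h2, h3]; rfl

lemma memLp_chirp {g : ℝ → ℂ} (hg : MemLp g 2 volume) (σ : ℝ) :
    MemLp (fun x => ee (σ * x ^ 2) * g x) 2 volume := by
  refine hg.of_le (AEStronglyMeasurable.mul ?_ hg.1) (Filter.Eventually.of_forall fun x => ?_)
  · exact (continuous_ee.comp (by fun_prop)).aestronglyMeasurable
  · rw [norm_mul, norm_ee, one_mul]

lemma ae_zero_of_fourier {f : ℝ → ℂ} (hf : MemLp f 2 volume)
    (h : (𝓕 (hf.toLp f) : H) =ᵐ[volume] 0) : f =ᵐ[volume] 0 := by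
  have h1 : (𝓕 (hf.toLp f) : H) = 0 := Lp.ext (h.trans (Lp.coeFn_zero _ _ _).symm)
  have h2 : ‖hf.toLp f‖ = 0 := by rw [← Lp.norm_fourier_eq, h1, norm_zero]
  have h3 : hf.toLp f = 0 := norm_eq_zero.1 h2
  have h4 := hf.coeFn_toLp
  rw [h3] at h4
  exact h4.symm.trans (Lp.coeFn_zero _ _ _)

/-- one coefficient function -/
lemma first_order {φ : ℝ → ℂ} (hφ : MemLp φ 2 volume) {s : ℝ} (hs : s ≠ 0) {a b : ℂ} {σ : ℝ}
    (hσ : σ = 1 ∨ σ = -1) {d : ℂ} (hd : d ≠ 0) {u : ℝ → ℂ} (hu : ∀ x, ‖u x‖ = 1)
    (h : ∀ᵐ x : ℝ, (a + b * ee (σ * x)) * φ x + d * (u x * φ (x - s)) = 0) : φ =ᵐ[volume] 0 := by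
  refine recurrence hφ hs (T := 1) one_pos (p := fun x => ‖a + b * ee (σ * x)‖ / ‖d‖) ?_ ?_ ?_
  · have : Continuous fun x : ℝ => ‖a + b * ee (σ * x)‖ / ‖d‖ := by
      have := continuous_ee
      fun_prop
    exact this.measurable
  · intro y
    have : ee (σ * (y + 1)) = ee (σ * y) := by
      rw [mul_add, ee_add]
      rcases hσ with rfl | rfl
      · rw [one_mul, one_mul, ee_one, mul_one]
      · rw [mul_one, ee_neg, ee_one, inv_one, mul_one]
    simp only [this]
  · filter_upwards [h] with x hx
    have h1 : d * (u x * φ (x - s)) = -((a + b * ee (σ * x)) * φ x) := by linear_combination hx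
    have h2 := congrArg norm h1
    rw [norm_mul, norm_mul, hu, one_mul, norm_neg, norm_mul] at h2
    have hd' : 0 < ‖d‖ := norm_pos_iff.2 hd
    rw [div_mul_eq_mul_div, eq_div_iff hd'.ne']
    linarith

/-- **Independence of the four time-frequency shifts.** -/
theorem four_shifts {g : ℝ → ℂ} (hg : MemLp g 2 volume) (c0 c1 c2 c3 : ℂ)
    (h : ∀ᵐ x : ℝ, c0 * g x + c1 * g (x - 1) + c2 * (ee x * g x) +
      c3 * (ee (√2 * x) * g (x - √2)) = 0)
    (hne : ¬ (c0 = 0 ∧ c1 = 0 ∧ c2 = 0 ∧ c3 = 0)) : g =ᵐ[volume] 0 := by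
  have hs2 : √2 ≠ 0 := by positivity
  have hss : √2 * √2 = 2 := Real.mul_self_sqrt (by norm_num)
  by_cases h3 : c3 = 0
  · subst h3
    by_cases h1 : c1 = 0
    · subst h1
      have hcount : {x : ℝ | c0 + c2 * ee x = 0}.Countable := by
        by_cases h2 : c2 = 0
        · have h0 : c0 ≠ 0 := by
            intro h0; exact hne ⟨h0, rfl, h2, rfl⟩
          have : {x : ℝ | c0 + c2 * ee x = 0} = ∅ := by
            ext x; simp [h2, h0]
          rw [this]; exact countable_empty
        · have h4 := (countable_ee (-c0 / c2)).preimage (f := fun x : ℝ => -x) neg_injective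
          refine h4.mono ?_
          intro x hx
          simp only [mem_ofPred_eq] at hx
          simp only [mem_preimage, mem_ofPred_eq, neg_neg]
          rw [eq_div_iff h2]
          linear_combination hx
      have h5 : ∀ᵐ x : ℝ, x ∉ {x : ℝ | c0 + c2 * ee x = 0} :=
        measure_eq_zero_iff_ae_notMem.1 (hcount.measure_zero volume)
      filter_upwards [h, h5] with x hx1 hx2
      have h6 : (c0 + c2 * ee x) * g x = 0 := by linear_combination hx1
      rcases mul_eq_zero.1 h6 with h7 | h7
      · exact absurd h7 hx2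
      · exact h7
    · refine first_order hg one_ne_zero (σ := 1) (Or.inl rfl) h1 (a := c0) (b := c2)
        (u := fun _ => 1) (by simp) ?_
      filter_upwards [h] with x hx
      rw [one_mul]
      linear_combination hx
  · by_cases h1 : c1 = 0
    · subst h1
      refine first_order hg hs2 (σ := 1) (Or.inl rfl) h3 (a := c0) (b := c2)
        (u := fun x => ee (√2 * x)) (fun x => norm_ee _) ?_
      filter_upwards [h] with x hx
      rw [one_mul]
      linear_combination hx
    · by_cases h2 : c2 = 0
      · subst h2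
        have hL := rel_of_ae hg (l := [(c0, 0, 0), (c1, 1, 0), (c3, √2, √2)]) (by
          filter_upwards [h] with x hx
          simp only [List.map_cons, List.map_nil, List.sum_cons, List.sum_nil, zero_mul, ee_zero,
            sub_zero]
          linear_combination hx)
        simp only [List.map_cons, List.map_nil, List.sum_cons, List.sum_nil, add_zero] at hL
        have hF := congrArg (fun f : H => 𝓕 f) hL
        simp only [FourierTransform.fourier_add, FourierTransform.fourier_smul] at hF
        have hz : 𝓕 (0 : H) = 0 := by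
          have := (Lp.fourierTransformₗᵢ ℝ ℂ).map_zero
          exact this
        rw [hz, fourier_tf, fourier_tf, fourier_tf] at hF
        have hR := rel_ae (f := 𝓕 (hg.toLp g))
          (l := [(c0, 0, 0), (c1, 0, -1), (c3, √2, -√2)]) (by
            simp only [List.map_cons, List.map_nil, List.sum_cons, List.sum_nil, add_zero]
            have e1 : ee (√2 * √2) = 1 := by
              rw [hss]; have := ee_int 2; push_cast at this; exact this
            rw [e1, mul_zero, mul_zero, ee_zero, one_smul, one_smul, one_smul, neg_zero] at hF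
            rw [← hF])
        refine ae_zero_of_fourier hg (first_order (Lp.memLp _) hs2 (σ := -1) (Or.inr rfl) h3
          (a := c0) (b := c1) (u := fun x => ee (-√2 * x)) (fun x => norm_ee _) ?_)
        filter_upwards [hR] with x hx
        simp only [List.map_cons, List.map_nil, List.sum_cons, List.sum_nil, zero_mul, ee_zero,
            sub_zero] at hx
        linear_combination hx
      · by_cases h0 : c0 = 0
        · -- three points, after a chirp
          subst h0
          have hf := memLp_chirp hg (1 / 2)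
          set f : ℝ → ℂ := fun x => ee (1 / 2 * x ^ 2) * g x with hfdef
          have hfg : ∀ x, g x = ee (-(1 / 2 * x ^ 2)) * f x := by
            intro x
            rw [hfdef]
            simp only
            rw [← mul_assoc, ← ee_add, neg_add_cancel, ee_zero, one_mul]
          have hL := rel_of_ae hf (l := [(-c1, 1, 0), (c2, 0, 0), (c3, √2, 2 * √2 - 1)]) (by
            filter_upwards [h] with x hx
            simp only [List.map_cons, List.map_nil, List.sum_cons, List.sum_nil, zero_mul, ee_zero,
              sub_zero]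
            rw [hfg x, hfg (x - 1), hfg (x - √2)] at hx
            have e0 : ee (1 / 2) = -1 := by
              unfold ee
              rw [show (2 * (Real.pi : ℂ) * Complex.I * ((1 / 2 : ℝ) : ℂ)) = Real.pi * Complex.I by
                push_cast; ring]
              exact Complex.exp_pi_mul_I
            have e1 : ee (-(1 / 2 * (x - 1) ^ 2)) = -(ee (-(1 / 2 * x ^ 2)) * ee x) := by
              have : -(1 / 2 * (x - 1) ^ 2) = -(1 / 2 * x ^ 2) + x - 1 / 2 := by ring
              rw [this, ee_sub, ee_add, e0]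
              norm_num
            have e2 : ee (√2 * x) * ee (-(1 / 2 * (x - √2) ^ 2)) =
                ee (-(1 / 2 * x ^ 2)) * (ee x * ee ((2 * √2 - 1) * x)) := by
              rw [← ee_add, ← ee_add, ← ee_add]
              have e3 : √2 * x + -(1 / 2 * (x - √2) ^ 2) =
                  -(1 / 2 * x ^ 2) + (x + (2 * √2 - 1) * x) + ((-1 : ℤ) : ℝ) := by
                push_cast
                linear_combination (-1 / 2 : ℝ) * hss
              rw [e3, ee_add, ee_int, mul_one]
            have e4 : ee (-(1 / 2 * x ^ 2)) * ee x ≠ 0 := mul_ne_zero (ee_ne _) (ee_ne _)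
            apply mul_left_cancel₀ e4
            rw [mul_zero]
            rw [e1] at hx
            have e5 : c3 * (ee (√2 * x) * (ee (-(1 / 2 * (x - √2) ^ 2)) * f (x - √2))) =
                c3 * ((ee (√2 * x) * ee (-(1 / 2 * (x - √2) ^ 2))) * f (x - √2)) := by ring
            rw [e5, e2] at hx
            linear_combination hx)
          simp only [List.map_cons, List.map_nil, List.sum_cons, List.sum_nil, add_zero] at hL
          have hF := congrArg (fun f : H => 𝓕 f) hL
          simp only [FourierTransform.fourier_add, FourierTransform.fourier_smul] at hF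
          have hz : 𝓕 (0 : H) = 0 := (Lp.fourierTransformₗᵢ ℝ ℂ).map_zero
          rw [hz, fourier_tf, fourier_tf, fourier_tf] at hF
          have hR := rel_ae (f := 𝓕 (hf.toLp f))
            (l := [(-c1, 0, -1), (c2, 0, 0), (c3 * ee (√2 * (2 * √2 - 1)), 2 * √2 - 1, -√2)]) (by
              simp only [List.map_cons, List.map_nil, List.sum_cons, List.sum_nil, add_zero]
              rw [mul_zero, mul_zero, ee_zero, one_smul, one_smul, neg_zero, smul_smul] at hF
              rw [← hF])
          have hβ : 2 * √2 - 1 ≠ 0 := by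
            have : 1 ≤ √2 := by rw [Real.one_le_sqrt]; norm_num
            linarith
          have hf0 : f =ᵐ[volume] 0 := by
            refine ae_zero_of_fourier hf (first_order (Lp.memLp _) hβ (σ := -1) (Or.inr rfl) h3
              (a := c2) (b := -c1) (u := fun x => ee (√2 * (2 * √2 - 1)) * ee (-√2 * x)) ?_ ?_)
            · intro x; rw [norm_mul, norm_ee, norm_ee, one_mul]
            · filter_upwards [hR] with x hx
              simp only [List.map_cons, List.map_nil, List.sum_cons, List.sum_nil, zero_mul,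
                ee_zero, sub_zero] at hx
              linear_combination hx
          filter_upwards [hf0] with x hx
          rw [hfg x, hx]
          simp
        · -- the main case
          have hf := memLp_chirp hg (-(1 / 2))
          set f : ℝ → ℂ := fun x => ee (-(1 / 2) * x ^ 2) * g x with hfdef
          have hfg : ∀ x, g x = ee (1 / 2 * x ^ 2) * f x := by
            intro x
            rw [hfdef]
            simp only
            rw [← mul_assoc, ← ee_add, show 1 / 2 * x ^ 2 + -(1 / 2) * x ^ 2 = 0 by ring, ee_zero,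
              one_mul]
          have hL := rel_of_ae hf (l := [(c0, 0, 0), (-c1, 1, -1), (c2, 0, 1), (c3, √2, 0)]) (by
            filter_upwards [h] with x hx
            simp only [List.map_cons, List.map_nil, List.sum_cons, List.sum_nil, zero_mul, ee_zero,
              sub_zero]
            rw [hfg x, hfg (x - 1), hfg (x - √2)] at hx
            have e0 : ee (1 / 2) = -1 := by
              unfold ee
              rw [show (2 * (Real.pi : ℂ) * Complex.I * ((1 / 2 : ℝ) : ℂ)) = Real.pi * Complex.I by
                push_cast; ring]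
              exact Complex.exp_pi_mul_I
            have e1 : ee (1 / 2 * (x - 1) ^ 2) = -(ee (1 / 2 * x ^ 2) * ee (-1 * x)) := by
              have : 1 / 2 * (x - 1) ^ 2 = 1 / 2 * x ^ 2 + (-1 * x) + 1 / 2 := by ring
              rw [this, ee_add, ee_add, e0]
              ring
            have e2 : ee (√2 * x) * ee (1 / 2 * (x - √2) ^ 2) = ee (1 / 2 * x ^ 2) := by
              rw [← ee_add]
              have e3 : √2 * x + 1 / 2 * (x - √2) ^ 2 = 1 / 2 * x ^ 2 + ((1 : ℤ) : ℝ) := by
                push_cast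
                linear_combination (1 / 2 : ℝ) * hss
              rw [e3, ee_add, ee_int, mul_one]
            have e4 : ee (1 / 2 * x ^ 2) ≠ 0 := ee_ne _
            apply mul_left_cancel₀ e4
            rw [mul_zero]
            rw [e1] at hx
            have e5 : c3 * (ee (√2 * x) * (ee (1 / 2 * (x - √2) ^ 2) * f (x - √2))) =
                c3 * ((ee (√2 * x) * ee (1 / 2 * (x - √2) ^ 2)) * f (x - √2)) := by ring
            rw [e5, e2] at hx
            rw [show (1 : ℝ) * x = x by ring]
            linear_combination hx)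
          simp only [List.map_cons, List.map_nil, List.sum_cons, List.sum_nil, add_zero] at hL
          have hF := congrArg (fun f : H => 𝓕 f) hL
          simp only [FourierTransform.fourier_add, FourierTransform.fourier_smul] at hF
          have hz : 𝓕 (0 : H) = 0 := (Lp.fourierTransformₗᵢ ℝ ℂ).map_zero
          rw [hz, fourier_tf, fourier_tf, fourier_tf, fourier_tf] at hF
          have hR := rel_ae (f := 𝓕 (hf.toLp f))
            (l := [(c0, 0, 0), (-c1, -1, -1), (c2, 1, 0), (c3, 0, -√2)]) (by
              simp only [List.map_cons, List.map_nil, List.sum_cons, List.sum_nil, add_zero]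
              have e1 : ee (1 * -1) = 1 := by
                have := ee_int (-1); push_cast at this; rw [one_mul]; exact this
              rw [e1, mul_zero, mul_zero, zero_mul, ee_zero, one_smul, one_smul, one_smul, one_smul,
                neg_zero] at hF
              rw [← hF])
          set G : ℝ → ℂ := ((𝓕 (hf.toLp f) : H) : ℝ → ℂ) with hG
          have hGm : MemLp G 2 volume := Lp.memLp _
          have hrelG : ∀ᵐ y : ℝ, c0 * G y - c1 * ee (-y) * G (y + 1) + c2 * G (y - 1) +
              c3 * ee (-√2 * y) * G y = 0 := by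
            filter_upwards [hR] with y hy
            simp only [List.map_cons, List.map_nil, List.sum_cons, List.sum_nil, zero_mul,
                ee_zero, sub_zero] at hy
            rw [show y - -1 = y + 1 by ring, show -1 * y = -y by ring] at hy
            linear_combination hy
          have hrelZ : ∀ᵐ y : ℝ, ∀ k : ℤ, c0 * G (y + k) - c1 * ee (-(y + k)) * G (y + k + 1) +
              c2 * G (y + k - 1) + c3 * ee (-√2 * (y + k)) * G (y + k) = 0 := by
            rw [ae_all_iff]
            intro k
            exact ae_shift hrelG k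
          have hsumG := ae_summable hGm (s := 1) one_ne_zero
          have hκ : c1 * c2 ≠ 0 := mul_ne_zero h1 h2
          have hbad1 : ∀ᵐ y : ℝ, y ∉ {y : ℝ | ∃ w : ℂ, ‖w‖ = ‖c2‖ ∧
              w ^ 2 + c0 * w = (c1 * c2) * ee (-y)} :=
            measure_eq_zero_iff_ae_notMem.1
              ((bad_countable h0 hκ (norm_pos_iff.2 h2)).measure_zero volume)
          have hbad2 : ∀ᵐ y : ℝ, y ∉ {y : ℝ | ∃ w : ℂ, ‖w‖ = ‖c3‖ ∧
              w ^ 2 + c0 * w = (c1 * c2) * ee (-y)} :=
            measure_eq_zero_iff_ae_notMem.1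
              ((bad_countable h0 hκ (norm_pos_iff.2 h3)).measure_zero volume)
          have hG0 : G =ᵐ[volume] 0 := by
            filter_upwards [hrelZ, hsumG, hbad1, hbad2] with y hy1 hy2 hy3 hy4
            have hA : -c1 * ee (-y) ≠ 0 := mul_ne_zero (neg_ne_zero.2 h1) (ee_ne _)
            have hD : c3 * ee (-√2 * y) ≠ 0 := mul_ne_zero h3 (ee_ne _)
            have hnD : ‖c3 * ee (-√2 * y)‖ = ‖c3‖ := by rw [norm_mul, norm_ee, mul_one]
            have hmain := circle_lemma dio_sqrt_two dio_sqrt_two' ((√2 : ℝ) : AddCircle (1 : ℝ))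
              (by rw [fourier_ee]; simp) hA h2 hD (C := c0) (a := fun k : ℤ => G (y + k)) (by
                intro w hw
                have hw' : w ^ 2 + c0 * w = (c1 * c2) * ee (-y) := by linear_combination hw
                rw [hnD]
                exact ⟨fun h5 => hy3 ⟨w, h5, hw'⟩, fun h5 => hy4 ⟨w, h5, hw'⟩⟩) (by
                refine hy2.congr fun k => ?_
                rw [mul_one]) (by
                intro k
                have h5 := hy1 k
                rw [fourier_ee]
                have e1 : ee (-(y + k)) = ee (-y) := by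
                  rw [neg_add, ee_add]
                  have := ee_int (-k)
                  push_cast at this
                  rw [this, mul_one]
                have e2 : ee (-√2 * (y + k)) = ee (-√2 * y) * ee (((-k : ℤ) : ℝ) * √2) := by
                  rw [← ee_add]; congr 1; push_cast; ring
                rw [e1, e2] at h5
                push_cast at h5 ⊢
                rw [show y + ((k : ℝ) + 1) = y + k + 1 by ring,
                  show y + ((k : ℝ) - 1) = y + k - 1 by ring]
                linear_combination h5) 0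
            simpa using hmain
          have hf0 : f =ᵐ[volume] 0 := ae_zero_of_fourier hf hG0
          filter_upwards [hf0] with x hx
          rw [hfg x, hx]
          simp

end

end Pool.Agent.Y306
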