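import Pool.Agent.Y306.TF

set_option autoImplicit false

open MeasureTheory Complex Filter Topology Set
open scoped ENNReal

namespace Pool.Agent.Y306

noncomputable section

lemma lintegral_tsum_shift {F : ℝ → ℝ≥0∞} (hF : AEMeasurable F volume) {s : ℝ} (hs : 0 < s)
    (a : ℝ) : ∫⁻ y in Ioc a (a + s), ∑' n : ℤ, F (y + n * s) = ∫⁻ y, F y := by
  have hmeas : ∀ n : ℤ, AEMeasurable (fun y => F (y + n * s)) volume := fun n =>
    hF.comp_quasiMeasurePreserving (measurePreserving_add_right volume _).quasiMeasurePreserving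
  rw [lintegral_tsum fun n => (hmeas n).restrict]
  have h1 : ∫⁻ y, F y = ∑' n : ℤ, ∫⁻ y in Ioc (a + n • s) (a + (n + 1) • s), F y := by
    rw [← lintegral_iUnion (fun _ => measurableSet_Ioc) (pairwise_disjoint_Ioc_add_zsmul a s),
      iUnion_Ioc_add_zsmul hs a, setLIntegral_univ]
  rw [h1]
  congr 1
  funext n
  rw [← lintegral_indicator measurableSet_Ioc, ← lintegral_indicator measurableSet_Ioc,
    ← lintegral_add_right_eq_self
      ((Ioc (a + n • s) (a + (n + 1) • s)).indicator F) (n * s : ℝ)]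
  congr 1
  funext y
  by_cases hy : y ∈ Ioc a (a + s)
  · have hy' : y + n * s ∈ Ioc (a + n • s) (a + (n + 1) • s) := by
      rw [zsmul_eq_mul, zsmul_eq_mul]
      push_cast
      exact ⟨by linarith [hy.1], by linarith [hy.2]⟩
    rw [indicator_of_mem hy, indicator_of_mem hy']
  · have hy' : y + n * s ∉ Ioc (a + n • s) (a + (n + 1) • s) := by
      rw [zsmul_eq_mul, zsmul_eq_mul]
      push_cast
      intro h
      exact hy ⟨by linarith [h.1], by linarith [h.2]⟩
    rw [indicator_of_notMem hy, indicator_of_notMem hy']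

lemma ae_summable_pos {φ : ℝ → ℂ} (hφ : MemLp φ 2 volume) {s : ℝ} (hs : 0 < s) :
    ∀ᵐ y : ℝ, Summable fun n : ℤ => ‖φ (y + n * s)‖ ^ 2 := by
  have hI : Integrable (fun y => ‖φ y‖ ^ 2) volume := (memLp_two_iff_integrable_sq_norm hφ.1).1 hφ
  have hfin : ∫⁻ y, ENNReal.ofReal (‖φ y‖ ^ 2) < ⊤ := by
    have := hI.2
    rw [hasFiniteIntegral_iff_ofReal (Eventually.of_forall fun y => by positivity)] at this
    exact this
  have hmeas : AEMeasurable (fun y => ENNReal.ofReal (‖φ y‖ ^ 2)) volume :=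
    hI.1.aemeasurable.ennreal_ofReal
  have hmeas' : ∀ n : ℤ, AEMeasurable (fun y => ENNReal.ofReal (‖φ (y + n * s)‖ ^ 2)) volume :=
    fun n => hmeas.comp_quasiMeasurePreserving
      (measurePreserving_add_right volume _).quasiMeasurePreserving
  have key : ∀ k : ℤ, ∀ᵐ y : ℝ, y ∈ Ioc (k * s) (k * s + s) →
      Summable fun n : ℤ => ‖φ (y + n * s)‖ ^ 2 := by
    intro k
    have h1 := lintegral_tsum_shift hmeas hs (k * s)
    have h2 : ∫⁻ y in Ioc (k * s) (k * s + s), ∑' n : ℤ, ENNReal.ofReal (‖φ (y + n * s)‖ ^ 2) ≠ ⊤ := by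
      rw [h1]; exact hfin.ne
    have h3 := ae_lt_top' (μ := volume.restrict (Ioc (k * s) (k * s + s)))
      (AEMeasurable.tsum fun n => (hmeas' n).restrict) h2
    rw [ae_restrict_iff' measurableSet_Ioc] at h3
    filter_upwards [h3] with y hy hy'
    have h4 := hy hy'
    have h5 := ENNReal.summable_toReal h4.ne
    refine h5.congr fun n => ?_
    rw [ENNReal.toReal_ofReal (by positivity)]
  rw [← ae_all_iff] at key
  filter_upwards [key] with y hy
  have h1 : y ∈ (⋃ n : ℤ, Ioc (n • s) ((n + 1) • s)) := by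
    rw [iUnion_Ioc_zsmul hs]; trivial
  obtain ⟨k, hk⟩ := mem_iUnion.1 h1
  refine hy k ?_
  rw [zsmul_eq_mul, zsmul_eq_mul] at hk
  push_cast at hk
  exact ⟨hk.1, by linarith [hk.2]⟩

lemma ae_summable {φ : ℝ → ℂ} (hφ : MemLp φ 2 volume) {s : ℝ} (hs : s ≠ 0) :
    ∀ᵐ y : ℝ, Summable fun n : ℤ => ‖φ (y + n * s)‖ ^ 2 := by
  rcases lt_or_gt_of_ne hs with h | h
  · filter_upwards [ae_summable_pos hφ (neg_pos.2 h)] with y hy
    have := (Equiv.neg ℤ).summable_iff.2 hy
    refine this.congr fun n => ?_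
    simp
  · exact ae_summable_pos hφ h

lemma ae_shift {p : ℝ → Prop} (h : ∀ᵐ y : ℝ, p y) (a : ℝ) : ∀ᵐ y : ℝ, p (y + a) :=
  (measurePreserving_add_right volume a).quasiMeasurePreserving.tendsto_ae.eventually h

lemma tendsto_of_summable_sq {u : ℤ → ℝ} (h : Summable fun n : ℤ => u n ^ 2) (hu : ∀ n, 0 ≤ u n)
    {f : ℕ → ℤ} (hf : Function.Injective f) : Tendsto (fun n : ℕ => u (f n)) atTop (𝓝 0) := by
  have h1 : Summable fun n : ℕ => u (f n) ^ 2 := h.comp_injective hf
  have h2 := h1.tendsto_atTop_zero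
  have h3 := (Real.continuous_sqrt.tendsto 0).comp h2
  rw [Real.sqrt_zero] at h3
  refine h3.congr fun n => ?_
  simp only [Function.comp_apply]
  exact Real.sqrt_sq (hu _)

/-- **Recurrence lemma.** A square integrable function `φ` with `|φ(y - s)| = p(y) |φ(y)|` for a
periodic `p` vanishes almost everywhere. -/
theorem recurrence {φ : ℝ → ℂ} (hφ : MemLp φ 2 volume) {s : ℝ} (hs : s ≠ 0) {T : ℝ} (hT : 0 < T)
    {p : ℝ → ℝ} (hpm : Measurable p) (hper : ∀ y, p (y + T) = p y)
    (h : ∀ᵐ y : ℝ, ‖φ (y - s)‖ = p y * ‖φ y‖) : φ =ᵐ[volume] 0 := by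
  have : Fact (0 < T) := ⟨hT⟩
  by_contra hne
  set P : ℕ → ℝ → ℝ := fun n y => ∏ j ∈ Finset.range n, p (y - j * s) with hP
  have hPm : ∀ n, Measurable (P n) := by
    intro n
    refine Finset.measurable_prod _ fun j _ => hpm.comp (by fun_prop)
  have hPper : ∀ n y, P n (y + T) = P n y := by
    intro n y
    simp only [hP]
    refine Finset.prod_congr rfl fun j _ => ?_
    rw [← hper (y - j * s)]
    congr 1
    ring
  -- the iterated relation
  have hall : ∀ᵐ y : ℝ, ∀ k : ℤ, ‖φ (y + k * s - s)‖ = p (y + k * s) * ‖φ (y + k * s)‖ := by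
    rw [ae_all_iff]
    intro k
    exact ae_shift h (k * s)
  have hit : ∀ᵐ y : ℝ, ∀ k : ℤ, ∀ n : ℕ,
      ‖φ (y + k * s - n * s)‖ = P n (y + k * s) * ‖φ (y + k * s)‖ := by
    filter_upwards [hall] with y hy k n
    induction n with
    | zero => simp [hP]
    | succ n ih =>
      have h1 := hy (k - n)
      simp only [hP] at ih ⊢
      rw [Finset.prod_range_succ]
      have e1 : y + ((k - n : ℤ) : ℝ) * s - s = y + k * s - ((n + 1 : ℕ) : ℝ) * s := by
        push_cast; ring
      have e2 : y + ((k - n : ℤ) : ℝ) * s = y + k * s - n * s := by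
        push_cast; ring
      rw [e1, e2] at h1
      rw [h1, ih]
      ring
  have hsum := ae_summable hφ hs
  set D : ℕ → Set ℝ := fun N => {y | ∀ n, N ≤ n → P n y < 1 / 2 ∧ 2 < P n (y + n * s)} with hD
  have hDm : ∀ N, MeasurableSet (D N) := by
    intro N
    simp only [hD]
    rw [show {y : ℝ | ∀ n, N ≤ n → P n y < 1 / 2 ∧ 2 < P n (y + n * s)} =
      ⋂ n : ℕ, ⋂ _ : N ≤ n, ({y : ℝ | P n y < 1 / 2} ∩ {y : ℝ | 2 < P n (y + n * s)}) by
      ext y; simp]
    refine MeasurableSet.iInter fun n => MeasurableSet.iInter fun _ => MeasurableSet.inter ?_ ?_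
    · exact measurableSet_lt (hPm n) measurable_const
    · exact measurableSet_lt measurable_const ((hPm n).comp (by fun_prop))
  have hDper : ∀ N y, y ∈ D N → ∀ k : ℤ, y + k * T ∈ D N := by
    intro N y hy k
    have hPk : ∀ n z, P n (z + k * T) = P n z := by
      intro n z
      have : Function.Periodic (P n) T := fun z => hPper n z
      exact this.int_mul k z
    intro n hn
    have := hy n hn
    rw [hPk, show y + k * T + n * s = (y + n * s) + k * T by ring, hPk]
    exact this
  have hae : ∀ᵐ y : ℝ, φ y ≠ 0 → y ∈ ⋃ N, D N := by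
    filter_upwards [hit, hsum] with y hy1 hy2 hy3
    have hpos : 0 < ‖φ y‖ := norm_pos_iff.2 hy3
    have ht1 : Tendsto (fun n : ℕ => ‖φ (y + ((-(n : ℤ) : ℤ) : ℝ) * s)‖) atTop (𝓝 0) :=
      tendsto_of_summable_sq hy2 (fun _ => norm_nonneg _)
        (f := fun n : ℕ => -(n : ℤ)) (fun a b hab => by simpa using hab)
    have ht2 : Tendsto (fun n : ℕ => ‖φ (y + (((n : ℤ) : ℤ) : ℝ) * s)‖) atTop (𝓝 0) :=
      tendsto_of_summable_sq hy2 (fun _ => norm_nonneg _)
        (f := fun n : ℕ => (n : ℤ)) (fun a b hab => by simpa using hab)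
    have e1 : ∀ᶠ n : ℕ in atTop, ‖φ (y + ((-(n : ℤ) : ℤ) : ℝ) * s)‖ < ‖φ y‖ / 2 :=
      ht1.eventually (gt_mem_nhds (by positivity))
    have e2 : ∀ᶠ n : ℕ in atTop, ‖φ (y + (((n : ℤ) : ℤ) : ℝ) * s)‖ < ‖φ y‖ / 2 :=
      ht2.eventually (gt_mem_nhds (by positivity))
    obtain ⟨N, hN⟩ := (e1.and e2).exists_forall_of_atTop
    refine mem_iUnion.2 ⟨N, fun n hn => ?_⟩
    obtain ⟨h1, h2⟩ := hN n hn
    constructor
    · have h3 := hy1 0 n
      have e3 : y + ((0 : ℤ) : ℝ) * s - n * s = y + ((-(n : ℤ) : ℤ) : ℝ) * s := by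
        push_cast; ring
      rw [e3] at h3
      rw [h3] at h1
      have e4 : y + ((0 : ℤ) : ℝ) * s = y := by push_cast; ring
      rw [e4] at h1
      by_contra hcon
      push Not at hcon
      nlinarith
    · have h3 := hy1 n n
      have e3 : y + ((n : ℤ) : ℝ) * s - n * s = y := by
        push_cast; ring
      rw [e3] at h3
      have e5 : ((n : ℤ) : ℝ) = (n : ℝ) := by push_cast; rfl
      rw [e5] at h3 h2
      by_contra hcon
      push Not at hcon
      have h6 : 0 ≤ ‖φ (y + n * s)‖ := norm_nonneg _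
      have h7 : P n (y + n * s) * ‖φ (y + n * s)‖ ≤ 2 * ‖φ (y + n * s)‖ :=
        mul_le_mul_of_nonneg_right hcon h6
      linarith
  have hex : ∃ N, volume (D N) ≠ 0 := by
    by_contra hcon
    push Not at hcon
    have h0 : volume (⋃ N, D N) = 0 := measure_iUnion_null hcon
    apply hne
    have h1 : ∀ᵐ y : ℝ, y ∉ ⋃ N, D N := measure_eq_zero_iff_ae_notMem.1 h0
    filter_upwards [hae, h1] with y hy1 hy2
    by_contra hy3
    exact hy2 (hy1 hy3)
  obtain ⟨N, hN⟩ := hex
  -- the circle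
  let r : AddCircle T → ℝ := fun x => ((AddCircle.measurableEquivIoc T 0 x : Ioc (0 : ℝ) (0 + T)) : ℝ)
  have hr : Measurable r := measurable_subtype_coe.comp (AddCircle.measurableEquivIoc T 0).measurable
  have hrmk : ∀ x : AddCircle T, ((r x : ℝ) : AddCircle T) = x := by
    intro x
    exact (AddCircle.equivIoc T 0).symm_apply_apply x
  have hrD : ∀ y : ℝ, r (y : AddCircle T) ∈ D N ↔ y ∈ D N := by
    intro y
    have h1 := hrmk (y : AddCircle T)
    rw [QuotientAddGroup.eq] at h1
    obtain ⟨k, hk⟩ := AddSubgroup.mem_zmultiples_iff.1 h1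
    rw [zsmul_eq_mul] at hk
    constructor
    · intro hy
      have := hDper N _ hy k
      rw [show r (y : AddCircle T) + k * T = y by linarith] at this
      exact this
    · intro hy
      have := hDper N _ hy (-k)
      rw [show y + ((-k : ℤ) : ℝ) * T = r (y : AddCircle T) by push_cast; linarith] at this
      exact this
  set D' : Set (AddCircle T) := r ⁻¹' (D N) with hD'
  have hD'm : MeasurableSet D' := hr (hDm N)
  have hD'pos : volume D' ≠ 0 := by
    intro h0
    apply hN
    have h1 : ∀ a : ℝ, volume (D N ∩ Ioc a (a + T)) = 0 := by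
      intro a
      have h2 := (AddCircle.measurePreserving_mk T a).measure_preimage hD'm.nullMeasurableSet
      rw [h0, Measure.restrict_apply' measurableSet_Ioc] at h2
      rw [← h2]
      congr 2
      ext y
      exact (hrD y).symm
    have h2 : D N = ⋃ k : ℤ, (D N ∩ Ioc (k • T) ((k + 1) • T)) := by
      rw [← inter_iUnion, iUnion_Ioc_zsmul hT, inter_univ]
    rw [h2]
    refine measure_iUnion_null fun k => ?_
    have h3 := h1 (k • T)
    rwa [show k • T + T = (k + 1) • T by rw [add_smul, one_smul]] at h3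
  have hcons : Conservative (fun x : AddCircle T => x + (s : AddCircle T)) volume :=
    (measurePreserving_add_right volume (s : AddCircle T)).conservative
  have hfreq := hcons.frequently_measure_inter_ne_zero hD'm.nullMeasurableSet hD'pos
  obtain ⟨n, hn, hnN⟩ := (hfreq.and_eventually (eventually_ge_atTop N)).exists
  obtain ⟨x, hx1, hx2⟩ := nonempty_of_measure_ne_zero hn
  have hiter : ∀ m : ℕ, (fun x : AddCircle T => x + (s : AddCircle T))^[m] x = x + ((m * s : ℝ) : AddCircle T) := by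
    intro m
    induction m with
    | zero => simp
    | succ m ih =>
      rw [Function.iterate_succ_apply', ih, add_assoc, ← AddCircle.coe_add]
      congr 2
      push_cast
      ring
  rw [mem_preimage, hiter n] at hx2
  have hy1 : r x ∈ D N := hx1
  have hy2 : r x + n * s ∈ D N := by
    rw [← hrD, AddCircle.coe_add, hrmk]
    exact hx2
  have h1 := (hy1 n hnN).2
  have h2 := (hy2 n hnN).1
  linarith

end

end Pool.Agent.Y306
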