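import Pool.Agent.Y728.MN.Def

/-!
Project MN: elements which are congruent to a given point at many primes (`StmtE`).
-/

set_option autoImplicit false

namespace Pool.Agent.Y306.MNE

open NumberField IsDedekindDomain Height Finset Pool.Agent.H691R3 Pool.Agent.H951R3.V
open Pool.Agent.TH876.KR (form counting localHeight localHeight_pos_iff m2)
open Pool.Agent.Y728.MN

variable {K : Type} [Field K] [NumberField K]

theorem wt_nonneg (F : Finset (HeightOneSpectrum (𝓞 K))) : 0 ≤ wt F :=
  Finset.sum_nonneg fun v _ => (ell_pos v).le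

/-- the weight of the set of the zeros is at most the height -/
theorem wt_zr_le {x : K} (hx : x ≠ 0) : wt (zr x) ≤ logHeight₁ x := by
  have h1 := sum_posLog_le (inv_ne_zero hx) (zr x)
  rw [logHeight₁_inv] at h1
  refine le_trans (Finset.sum_le_sum fun v hv => ?_) h1
  have h2 := (mem_zr.1 hv).2
  have hN : (1 : ℝ) < Nv v := by linarith [two_le_Nv v]
  obtain ⟨n, hn⟩ := fv_zpow v hx
  have hn0 : n < 0 := by
    by_contra hcon
    have := one_le_zpow₀ hN.le (not_lt.1 hcon)
    rw [← hn] at this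
    linarith
  have h3 : Real.log (fv v x⁻¹) = -(n : ℝ) * ell v := by
    rw [map_inv₀, Real.log_inv, hn, Real.log_zpow]
    show -(↑n * Real.log (Nv v)) = -(n : ℝ) * ell v
    unfold ell
    ring
  have h4 : (1 : ℝ) ≤ -(n : ℝ) := by
    have : (n : ℤ) ≤ -1 := by omega
    have : (n : ℝ) ≤ -1 := by exact_mod_cast this
    linarith
  show ell v ≤ max 0 (Real.log (fv v x⁻¹))
  rw [h3]
  refine le_trans ?_ (le_max_right _ _)
  nlinarith [ell_pos v]

theorem wt_sdiff (g S : Finset (HeightOneSpectrum (𝓞 K))) [DecidableEq (HeightOneSpectrum (𝓞 K))] :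
    wt g ≤ wt (g \ S) + wt S := by
  have h1 : wt (g \ S) + wt (g ∩ S) = wt g := by
    unfold Pool.Agent.Y728.MN.wt
    rw [← Finset.sum_union (Finset.disjoint_sdiff_inter g S), Finset.sdiff_union_inter]
  have h2 : wt (g ∩ S) ≤ wt S :=
    Finset.sum_le_sum_of_subset_of_nonneg Finset.inter_subset_right fun v _ _ => (ell_pos v).le
  linarith

/-- the case of the point at infinity -/
theorem e_inf (hA : StmtA K) (a : Fin 2 → K) (h1 : a 1 = 0) (h0 : a 0 ≠ 0) (δ : ℝ)
    (hδ : 0 < δ) : ∃ C : ℝ, 0 < C ∧ ∀ Y : ℝ, 0 ≤ Y →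
    ∀ (g : Finset (HeightOneSpectrum (𝓞 K))) (E : Finset K),
      (∀ x ∈ E, form a ![x, 1] ≠ 0 ∧ logHeight₁ x ≤ Y ∧
        ∀ v ∈ g, 0 < localHeight v a ![x, 1]) →
      (E.card : ℝ) ≤ C * Real.exp ((2 + δ) * Y - wt g) := by
  classical
  obtain ⟨C, hC, hA'⟩ := hA (δ / 3) (by positivity)
  refine ⟨C + 1, by positivity, fun Y hY g E hE => ?_⟩
  have key : ∀ x ∈ E, ∀ v ∈ g, 1 < fv v x := by
    intro x hx v hv
    obtain ⟨hf, -, hl⟩ := hE x hx
    have h2 := (localHeight_pos_iff v hf).1 (hl v hv)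
    have e1 : form a ![x, 1] = a 0 := by
      simp [form, h1]
    have e2 : m2 v a = fv v (a 0) := by
      show max (fv v (a 0)) (fv v (a 1)) = _
      rw [h1, map_zero, max_eq_left ((fv v).nonneg _)]
    have e3 : m2 v ![x, 1] = max (fv v x) 1 := by
      show max (fv v x) (fv v 1) = _
      rw [map_one]
    rw [e1, e2, e3] at h2
    have h3 : 0 < fv v (a 0) := (fv v).pos h0
    have h4 : 1 < max (fv v x) 1 := by
      by_contra hcon
      have := mul_le_mul_of_nonneg_left (not_lt.1 hcon) h3.le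
      linarith
    rcases lt_max_iff.1 h4 with h5 | h5
    · exact h5
    · exact absurd h5 (lt_irrefl _)
  have hmain : (((E.erase 0).image (fun x => x⁻¹)).card : ℝ) ≤
      C * Real.exp (Y - wt g + Y + δ / 3 * (Y + Y + Y)) := by
    refine hA' Y Y Y hY hY hY g _ fun u hu => ?_
    obtain ⟨x, hx, rfl⟩ := Finset.mem_image.1 hu
    obtain ⟨hx0, hxE⟩ := Finset.mem_erase.1 hx
    have hh := (hE x hxE).2.1
    refine ⟨inv_ne_zero hx0, by rw [logHeight₁_inv]; exact hh, fun v hv => ?_, ?_, ?_⟩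
    · rw [mem_zr]
      refine ⟨inv_ne_zero hx0, ?_⟩
      rw [map_inv₀]
      exact inv_lt_one_of_one_lt₀ (key x hxE v hv)
    · refine (wt_zr_le (inv_ne_zero hx0)).trans ?_
      rw [logHeight₁_inv]
      exact hh
    · rw [inv_inv]
      exact (wt_zr_le hx0).trans hh
  rw [Finset.card_image_of_injective _ inv_injective] at hmain
  have e5 : Y - wt g + Y + δ / 3 * (Y + Y + Y) = (2 + δ) * Y - wt g := by ring
  rw [e5] at hmain
  by_cases hz : (0 : K) ∈ E
  · have hg : g = ∅ := by
      rw [Finset.eq_empty_iff_forall_notMem]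
      intro v hv
      have := key 0 hz v hv
      rw [map_zero] at this
      linarith
    have h6 : (1 : ℝ) ≤ Real.exp ((2 + δ) * Y - wt g) := by
      refine Real.one_le_exp ?_
      rw [hg]
      show 0 ≤ (2 + δ) * Y - ∑ v ∈ (∅ : Finset (HeightOneSpectrum (𝓞 K))), ell v
      rw [Finset.sum_empty, sub_zero]
      positivity
    have h7 : (E.card : ℝ) = ((E.erase 0).card : ℝ) + 1 := by
      rw [← Finset.card_erase_add_one hz]
      push_cast
      ring
    rw [h7, add_mul]
    linarith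
  · rw [Finset.erase_eq_of_notMem hz] at hmain
    rw [add_mul, one_mul]
    linarith [Real.exp_pos ((2 + δ) * Y - wt g)]

/-- the case of a finite point -/
theorem e_fin (hA : StmtA K) (a : Fin 2 → K) (h1 : a 1 ≠ 0) (δ : ℝ)
    (hδ : 0 < δ) : ∃ C : ℝ, 0 < C ∧ ∀ Y : ℝ, 0 ≤ Y →
    ∀ (g : Finset (HeightOneSpectrum (𝓞 K))) (E : Finset K),
      (∀ x ∈ E, form a ![x, 1] ≠ 0 ∧ logHeight₁ x ≤ Y ∧
        ∀ v ∈ g, 0 < localHeight v a ![x, 1]) →
      (E.card : ℝ) ≤ C * Real.exp ((2 + δ) * Y - wt g) := by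
  classical
  obtain ⟨C, hC, hA'⟩ := hA (δ / 3) (by positivity)
  set α : K := a 0 / a 1 with hα
  have ha0 : a 0 = α * a 1 := by rw [hα, div_mul_cancel₀ _ h1]
  -- the constant of the height
  obtain ⟨c, hc0, hc⟩ : ∃ c : ℝ, 0 ≤ c ∧ ∀ x : K, logHeight₁ (x - α) ≤ logHeight₁ x + c := by
    refine ⟨totalWeight K * Real.log 2 + logHeight₁ α, ?_, fun x => ?_⟩
    · have := zero_le_logHeight₁ α
      have h2 : 0 ≤ Real.log 2 := Real.log_nonneg (by norm_num)
      positivity
    · have := logHeight₁_sub_le x α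
      linarith
  set S : Finset (HeightOneSpectrum (𝓞 K)) := zr α⁻¹ with hS
  refine ⟨C * Real.exp (2 * c + δ * c + wt S), by positivity, fun Y hY g E hE => ?_⟩
  have hne : ∀ x ∈ E, x - α ≠ 0 := by
    intro x hx h2
    apply (hE x hx).1
    have h3 : x = α := sub_eq_zero.1 h2
    simp [form, ha0, h3]
    ring
  have key : ∀ x ∈ E, ∀ v ∈ g \ S, v ∈ zr (x - α) := by
    intro x hx v hv
    obtain ⟨hvg, hvS⟩ := Finset.mem_sdiff.1 hv
    obtain ⟨hf, -, hl⟩ := hE x hx
    have h2 := (localHeight_pos_iff v hf).1 (hl v hvg)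
    have hα1 : fv v α ≤ 1 := by
      by_contra hcon
      apply hvS
      rw [hS, mem_zr]
      have hα0 : α ≠ 0 := by
        rintro h
        rw [h, map_zero] at hcon
        exact hcon zero_le_one
      refine ⟨inv_ne_zero hα0, ?_⟩
      rw [map_inv₀]
      exact inv_lt_one_of_one_lt₀ (not_le.1 hcon)
    have h3 : 0 < fv v (a 1) := (fv v).pos h1
    have e1 : form a ![x, 1] = -(a 1 * (x - α)) := by
      simp [form, ha0]
      ring
    have e2 : m2 v a = fv v (a 1) := by
      show max (fv v (a 0)) (fv v (a 1)) = _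
      rw [ha0, map_mul, max_eq_right]
      nlinarith
    have e3 : m2 v ![x, 1] = max (fv v x) 1 := by
      show max (fv v x) (fv v 1) = _
      rw [map_one]
    rw [e1, e2, e3, (fv v).map_neg, map_mul] at h2
    have h4 : fv v (x - α) < max (fv v x) 1 := lt_of_mul_lt_mul_left h2 h3.le
    rw [mem_zr]
    refine ⟨hne x hx, ?_⟩
    have h5 : fv v x ≤ max (fv v (x - α)) (fv v α) := by
      have := fv_na v (x - α) α
      rwa [sub_add_cancel] at this
    rcases le_or_gt (fv v x) 1 with h6 | h6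
    · rwa [max_eq_right h6] at h4
    · rw [max_eq_left h6.le] at h4
      rcases le_max_iff.1 h5 with h7 | h7
      · linarith
      · linarith
  have hmain : ((E.image (fun x => x - α)).card : ℝ) ≤
      C * Real.exp (Y + c - wt (g \ S) + (Y + c) + δ / 3 * (Y + c + (Y + c) + (Y + c))) := by
    refine hA' (Y + c) (Y + c) (Y + c) (by positivity) (by positivity) (by positivity) _ _
      fun u hu => ?_
    obtain ⟨x, hx, rfl⟩ := Finset.mem_image.1 hu
    have hh : logHeight₁ (x - α) ≤ Y + c := (hc x).trans (by linarith [(hE x hx).2.1])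
    refine ⟨hne x hx, hh, fun v hv => key x hx v hv, (wt_zr_le (hne x hx)).trans hh, ?_⟩
    refine (wt_zr_le (inv_ne_zero (hne x hx))).trans ?_
    rw [logHeight₁_inv]
    exact hh
  rw [Finset.card_image_of_injective _ (sub_left_injective)] at hmain
  refine hmain.trans ?_
  rw [mul_assoc, ← Real.exp_add]
  refine mul_le_mul_of_nonneg_left (Real.exp_le_exp.2 ?_) hC.le
  have h8 := wt_sdiff g S
  linarith

theorem sE (K : Type) [Field K] [NumberField K] : StmtA K → StmtE K := by
  intro hA a δ hδ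
  by_cases h1 : a 1 = 0
  · by_cases h0 : a 0 = 0
    · refine ⟨1, one_pos, fun Y _ g E hE => ?_⟩
      have hE0 : E = ∅ := by
        rw [Finset.eq_empty_iff_forall_notMem]
        intro x hx
        apply (hE x hx).1
        simp [form, h0, h1]
      rw [hE0, Finset.card_empty, Nat.cast_zero]
      positivity
    · exact e_inf hA a h1 h0 δ hδ
  · exact e_fin hA a h1 δ hδ

end Pool.Agent.Y306.MNE
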