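import Mathlib

/-! # Nirenberg's expanding map problem: basic facts on `ℓ²`-sums -/

open scoped ENNReal Topology
open Filter

noncomputable section

namespace Pool.Agent.Y306.Nir

variable {K : Type*} [NormedAddCommGroup K] [InnerProductSpace ℝ K]

/-- The `ℓ²`-sum of countably many copies of `K`. -/
abbrev HH (K : Type*) [NormedAddCommGroup K] [InnerProductSpace ℝ K] := lp (fun _ : ℕ => K) 2

lemma memlp_iff (x : ℕ → K) : Memℓp (E := fun _ : ℕ => K) x 2 ↔ Summable fun n => ‖x n‖ ^ 2 := by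
  have h := memℓp_gen_iff (E := fun _ : ℕ => K) (f := x) (p := 2) (by norm_num)
  simpa using h

lemma summable_sq (x : HH K) : Summable fun n => ‖x n‖ ^ 2 :=
  (memlp_iff _).1 (lp.memℓp x)

lemma norm_sq (x : HH K) : ‖x‖ ^ 2 = ∑' n, ‖x n‖ ^ 2 := by
  have h := lp.norm_rpow_eq_tsum (E := fun _ : ℕ => K) (p := 2) (by norm_num) x
  simpa using h

lemma memlp_of_le {x : ℕ → K} {y : HH K} (h : ∀ n, ‖x n‖ ≤ ‖y n‖) :
    Memℓp (E := fun _ : ℕ => K) x 2 :=
  (memlp_iff _).2 (Summable.of_nonneg_of_le (fun n => by positivity)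
    (fun n => by gcongr; exact h n) (summable_sq y))

lemma norm_le_of_le {x y : HH K} (h : ∀ n, ‖x n‖ ≤ ‖y n‖) : ‖x‖ ≤ ‖y‖ := by
  have h2 : ‖x‖ ^ 2 ≤ ‖y‖ ^ 2 := by
    rw [norm_sq, norm_sq]
    exact (summable_sq x).tsum_le_tsum (fun n => by gcongr; exact h n) (summable_sq y)
  exact le_of_sq_le_sq h2 (norm_nonneg _) 

/-- multiplication by a bounded scalar sequence -/
def mulc (w : ℕ → ℝ) (hw : ∀ n, |w n| ≤ 1) (x : HH K) : HH K :=
  ⟨fun n => w n • x n, memlp_of_le (y := x) (fun n => by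
    rw [norm_smul, Real.norm_eq_abs]
    exact mul_le_of_le_one_left (norm_nonneg _) (hw n))⟩

@[simp] lemma mulc_apply (w : ℕ → ℝ) (hw : ∀ n, |w n| ≤ 1) (x : HH K) (n : ℕ) :
    mulc w hw x n = w n • x n := rfl

/-- rows `≥ n` of `x` -/
def tl (n : ℕ) (x : HH K) : HH K :=
  mulc (fun i => if n ≤ i then 1 else 0) (fun i => by split_ifs <;> simp) x

/-- rows `< n` of `x` -/
def hd (n : ℕ) (x : HH K) : HH K :=
  mulc (fun i => if n ≤ i then 0 else 1) (fun i => by split_ifs <;> simp) x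

lemma tl_apply (n : ℕ) (x : HH K) (i : ℕ) : tl n x i = if n ≤ i then x i else 0 := by
  simp only [tl, mulc_apply]; split_ifs <;> simp

lemma hd_apply (n : ℕ) (x : HH K) (i : ℕ) : hd n x i = if n ≤ i then 0 else x i := by
  simp only [hd, mulc_apply]; split_ifs <;> simp

lemma hd_add_tl (n : ℕ) (x : HH K) : hd n x + tl n x = x := by
  ext i
  rw [lp.coeFn_add, Pi.add_apply, hd_apply, tl_apply]
  split_ifs <;> simp

lemma tl_sub (n : ℕ) (x y : HH K) : tl n (x - y) = tl n x - tl n y := by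
  ext i
  simp only [lp.coeFn_sub, Pi.sub_apply, tl_apply]
  split_ifs <;> simp

lemma hd_sub (n : ℕ) (x y : HH K) : hd n (x - y) = hd n x - hd n y := by
  ext i
  simp only [lp.coeFn_sub, Pi.sub_apply, hd_apply]
  split_ifs <;> simp

lemma hd_add (n : ℕ) (x y : HH K) : hd n (x + y) = hd n x + hd n y := by
  ext i
  simp only [lp.coeFn_add, Pi.add_apply, hd_apply]
  split_ifs <;> simp

lemma tl_add (n : ℕ) (x y : HH K) : tl n (x + y) = tl n x + tl n y := by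
  ext i
  simp only [lp.coeFn_add, Pi.add_apply, tl_apply]
  split_ifs <;> simp

lemma norm_tl_le (n : ℕ) (x : HH K) : ‖tl n x‖ ≤ ‖x‖ :=
  norm_le_of_le fun i => by rw [tl_apply]; split_ifs <;> simp

lemma norm_hd_le (n : ℕ) (x : HH K) : ‖hd n x‖ ≤ ‖x‖ :=
  norm_le_of_le fun i => by rw [hd_apply]; split_ifs <;> simp

lemma norm_tl_anti {n m : ℕ} (h : n ≤ m) (x : HH K) : ‖tl m x‖ ≤ ‖tl n x‖ :=
  norm_le_of_le fun i => by
    rw [tl_apply, tl_apply]
    by_cases h1 : m ≤ i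
    · rw [if_pos h1, if_pos (h.trans h1)]
    · rw [if_neg h1]; simp

lemma norm_tl_sub (n : ℕ) (x y : HH K) : ‖tl n x‖ ≤ ‖tl n y‖ + ‖x - y‖ := by
  have h1 : ‖tl n x - tl n y‖ ≤ ‖x - y‖ := by rw [← tl_sub]; exact norm_tl_le _ _
  have h2 := norm_sub_norm_le (tl n x) (tl n y)
  linarith

lemma abs_norm_tl_sub (n : ℕ) (x y : HH K) : |‖tl n x‖ - ‖tl n y‖| ≤ ‖x - y‖ := by
  have h1 : ‖tl n x - tl n y‖ ≤ ‖x - y‖ := by rw [← tl_sub]; exact norm_tl_le _ _
  exact (abs_norm_sub_norm_le _ _).trans h1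

lemma continuous_norm_tl (n : ℕ) : Continuous fun x : HH K => ‖tl n x‖ := by
  rw [Metric.continuous_iff]
  intro b ε hε
  refine ⟨ε, hε, fun a ha => ?_⟩
  rw [Real.dist_eq]
  rw [dist_eq_norm] at ha
  exact (abs_norm_tl_sub n a b).trans_lt ha

lemma norm_sq_hd_add_tl (n : ℕ) (x : HH K) : ‖x‖ ^ 2 = ‖hd n x‖ ^ 2 + ‖tl n x‖ ^ 2 := by
  rw [norm_sq, norm_sq, norm_sq, ← (summable_sq _).tsum_add (summable_sq _)]
  congr 1; ext i
  rw [hd_apply, tl_apply]
  split_ifs <;> simp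

lemma tendsto_norm_tl (x : HH K) : Tendsto (fun n => ‖tl n x‖) atTop (𝓝 0) := by
  have h1 : ∀ n, ‖tl n x‖ ^ 2 = ∑' i, ‖x (i + n)‖ ^ 2 := by
    intro n
    rw [norm_sq]
    have h2 := (summable_sq (tl n x)).sum_add_tsum_nat_add n
    rw [← h2]
    rw [Finset.sum_eq_zero (fun i hi => by
      rw [tl_apply, if_neg (by have := Finset.mem_range.1 hi; omega)]; simp), zero_add]
    congr 1; ext i
    rw [tl_apply, if_pos (by omega)]
  have h3 : Tendsto (fun n => ‖tl n x‖ ^ 2) atTop (𝓝 0) := by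
    simp_rw [h1]
    exact tendsto_sum_nat_add fun i => ‖x i‖ ^ 2
  have h4 := (Real.continuous_sqrt.tendsto 0).comp h3
  rw [Real.sqrt_zero] at h4
  refine h4.congr fun n => ?_
  simp [Real.sqrt_sq (norm_nonneg _)]

end Pool.Agent.Y306.Nir
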