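import Mathlib
import Pool.Agent.Y306.NirA

/-! # Nirenberg's expanding map problem: the map -/

open scoped ENNReal Topology RealInnerProductSpace
open Filter

noncomputable section

namespace Pool.Agent.Y306.Nir

variable {K : Type*} [NormedAddCommGroup K] [InnerProductSpace ℝ K]

def psi (r : ℝ) : ℝ := max 0 (min 1 (2 * r - 1))
def chi (r : ℝ) : ℝ := max 0 (min 1 (2 - 8 * r))

lemma psi_nonneg (r : ℝ) : 0 ≤ psi r := le_max_left _ _
lemma psi_le_one (r : ℝ) : psi r ≤ 1 := max_le zero_le_one (min_le_left _ _)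
lemma chi_nonneg (r : ℝ) : 0 ≤ chi r := le_max_left _ _
lemma chi_le_one (r : ℝ) : chi r ≤ 1 := max_le zero_le_one (min_le_left _ _)

lemma psi_eq_zero {r : ℝ} (h : r ≤ 1 / 2) : psi r = 0 := by
  unfold psi
  rw [max_eq_left]
  exact (min_le_right _ _).trans (by linarith)

lemma psi_eq_one {r : ℝ} (h : 1 ≤ r) : psi r = 1 := by
  unfold psi
  rw [min_eq_left (by linarith), max_eq_right zero_le_one]

lemma chi_eq_zero {r : ℝ} (h : 1 / 4 ≤ r) : chi r = 0 := by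
  unfold chi
  rw [max_eq_left]
  exact (min_le_right _ _).trans (by linarith)

lemma chi_eq_one {r : ℝ} (h : r ≤ 1 / 8) : chi r = 1 := by
  unfold chi
  rw [min_eq_left (by linarith), max_eq_right zero_le_one]

lemma chi_anti {r s : ℝ} (h : r ≤ s) : chi s ≤ chi r := by
  unfold chi
  gcongr

lemma continuous_psi : Continuous psi := by unfold psi; fun_prop
lemma continuous_chi : Continuous chi := by unfold chi; fun_prop

/-- weight of row `n` in the head -/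
def ps (t : ℝ) (x : HH K) (n : ℕ) : ℝ := psi (‖tl n x‖ / t)
def gg (t : ℝ) (x : HH K) (n : ℕ) : ℝ := chi (‖tl n x‖ / t)
def ww (t : ℝ) (x : HH K) : ℕ → ℝ
  | 0 => gg t x 0
  | n + 1 => gg t x (n + 1) - gg t x n
def ph (t : ℝ) (x : HH K) (n : ℕ) : ℝ := √(ww t x n)

lemma ps_nonneg (t : ℝ) (x : HH K) (n : ℕ) : 0 ≤ ps t x n := psi_nonneg _
lemma ps_le_one (t : ℝ) (x : HH K) (n : ℕ) : ps t x n ≤ 1 := psi_le_one _

lemma ps_abs (t : ℝ) (x : HH K) (n : ℕ) : |ps t x n| ≤ 1 := by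
  rw [abs_of_nonneg (ps_nonneg _ _ _)]; exact ps_le_one _ _ _

lemma ww_nonneg {t : ℝ} (ht : 0 < t) (x : HH K) (n : ℕ) : 0 ≤ ww t x n := by
  cases n with
  | zero => exact chi_nonneg _
  | succ n =>
    simp only [ww, gg, sub_nonneg]
    apply chi_anti
    gcongr
    exact norm_tl_anti (Nat.le_succ n) x

lemma sum_ww (t : ℝ) (x : HH K) (n : ℕ) :
    ∑ i ∈ Finset.range (n + 1), ww t x i = gg t x n := by
  induction n with
  | zero => simp [ww]
  | succ n ih => rw [Finset.sum_range_succ, ih]; simp [ww]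

lemma exists_tl_lt (x : HH K) {ε : ℝ} (hε : 0 < ε) : ∃ n, ‖tl n x‖ < ε :=
  ((tendsto_norm_tl x).eventually (gt_mem_nhds hε)).exists

lemma gg_eq_one {t : ℝ} (ht : 0 < t) {x : HH K} {n : ℕ} (h : ‖tl n x‖ ≤ t / 8) : gg t x n = 1 := by
  apply chi_eq_one
  rw [div_le_iff₀ ht]; linarith

lemma hasSum_ww {t : ℝ} (ht : 0 < t) (x : HH K) : HasSum (ww t x) 1 := by
  rw [hasSum_iff_tendsto_nat_of_nonneg (ww_nonneg ht x)]
  obtain ⟨N, hN⟩ := exists_tl_lt x (show (0:ℝ) < t / 8 by positivity)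
  apply tendsto_atTop_of_eventually_const (i₀ := N + 1)
  intro n hn
  obtain ⟨m, rfl⟩ : ∃ m, n = m + 1 := ⟨n - 1, by omega⟩
  rw [sum_ww]
  exact gg_eq_one ht ((norm_tl_anti (by omega : N ≤ m) x).trans hN.le)

lemma ph_nonneg (t : ℝ) (x : HH K) (n : ℕ) : 0 ≤ ph t x n := Real.sqrt_nonneg _
lemma ph_sq {t : ℝ} (ht : 0 < t) (x : HH K) (n : ℕ) : ph t x n ^ 2 = ww t x n :=
  Real.sq_sqrt (ww_nonneg ht x n)
lemma hasSum_ph_sq {t : ℝ} (ht : 0 < t) (x : HH K) : HasSum (fun n => ph t x n ^ 2) 1 := by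
  simp_rw [ph_sq ht]; exact hasSum_ww ht x

/-- head of `x` at level `t` -/
def hh (t : ℝ) (x : HH K) : HH K := mulc (ps t x) (ps_abs t x) x
/-- tail of `x` at level `t` -/
def tt (t : ℝ) (x : HH K) : HH K := x - hh t x

lemma hh_apply (t : ℝ) (x : HH K) (n : ℕ) : hh t x n = ps t x n • x n := rfl
lemma hh_add_tt (t : ℝ) (x : HH K) : hh t x + tt t x = x := by simp [tt]

lemma tt_apply (t : ℝ) (x : HH K) (n : ℕ) : tt t x n = (1 - ps t x n) • x n := by
  simp [tt, hh_apply, sub_smul]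

lemma norm_tt_le {t : ℝ} (ht : 0 < t) (x : HH K) : ‖tt t x‖ ≤ t := by
  classical
  have hex := exists_tl_lt x ht
  set i := Nat.find hex with hi
  have h1 : ‖tl i x‖ < t := Nat.find_spec hex
  refine le_trans (norm_le_of_le (y := tl i x) fun n => ?_) h1.le
  rw [tt_apply, tl_apply]
  split_ifs with h
  · rw [norm_smul, Real.norm_eq_abs, abs_of_nonneg (sub_nonneg.2 (ps_le_one t x n))]
    exact mul_le_of_le_one_left (norm_nonneg _) (by linarith [ps_nonneg t x n])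
  · have h2 : ¬ ‖tl n x‖ < t := Nat.find_min hex (by omega)
    have h3 : ps t x n = 1 := psi_eq_one (by rw [le_div_iff₀ ht]; linarith)
    rw [h3]; simp

/-- first row with small tail -/
def nn (t : ℝ) (x : HH K) : ℕ := sInf {n | ‖tl n x‖ < t / 4}

lemma nn_spec {t : ℝ} (ht : 0 < t) (x : HH K) : ‖tl (nn t x) x‖ < t / 4 :=
  Nat.sInf_mem (s := {n | ‖tl n x‖ < t / 4}) (exists_tl_lt x (by positivity))

lemma ps_eq_zero {t : ℝ} (ht : 0 < t) {x : HH K} {n : ℕ} (h : ‖tl n x‖ ≤ t / 2) : ps t x n = 0 := by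
  apply psi_eq_zero
  rw [div_le_iff₀ ht]; linarith

lemma ps_eq_zero' {t : ℝ} (ht : 0 < t) {x : HH K} {n : ℕ} (h : nn t x ≤ n) : ps t x n = 0 :=
  ps_eq_zero ht (by linarith [nn_spec ht x, norm_tl_anti h x])

lemma ph_eq_zero {t : ℝ} (ht : 0 < t) {x : HH K} {n : ℕ} (h : n < nn t x) : ph t x n = 0 := by
  have h1 : t / 4 ≤ ‖tl n x‖ := by
    by_contra h2
    push Not at h2
    exact absurd (Nat.sInf_le (s := {n | ‖tl n x‖ < t / 4}) h2) (by unfold nn at h; omega)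
  have h2 : gg t x n = 0 := chi_eq_zero (by rw [le_div_iff₀ ht]; linarith)
  have h3 : ww t x n ≤ 0 := by
    cases n with
    | zero => simp [ww, h2]
    | succ m => simp only [ww, h2]; linarith [chi_nonneg (‖tl m x‖ / t), show gg t x m = chi (‖tl m x‖ / t) from rfl]
  exact Real.sqrt_eq_zero_of_nonpos h3

/-- if the tail is tiny the row is not used by the code -/
lemma ph_eq_zero_of_large {t : ℝ} (ht : 0 < t) {x : HH K} {n M : ℕ} (h : ‖tl M x‖ ≤ t / 8)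
    (hn : M + 1 ≤ n) : ph t x n = 0 := by
  obtain ⟨m, rfl⟩ : ∃ m, n = m + 1 := ⟨n - 1, by omega⟩
  have h1 : gg t x (m + 1) = 1 := gg_eq_one ht ((norm_tl_anti (by omega) x).trans h)
  have h2 : gg t x m = 1 := gg_eq_one ht ((norm_tl_anti (by omega : M ≤ m) x).trans h)
  simp [ph, ww, h1, h2]

/-- the data of the coding isometry -/
structure Cod (K : Type*) [NormedAddCommGroup K] [InnerProductSpace ℝ K] where
  J : HH K →ₗᵢ[ℝ] K
  u : K
  hu : ‖u‖ = 1
  huJ : ∀ x, ⟪u, J x⟫ = 0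

def rho (t : ℝ) (x : HH K) : ℝ := √(t ^ 2 - ‖tt t x‖ ^ 2)

/-- the code vector, of norm `t` -/
def kk (C : Cod K) (t : ℝ) (x : HH K) : K := rho t x • C.u + C.J (tt t x)

lemma norm_comb (C : Cod K) (r : ℝ) (z : HH K) : ‖r • C.u + C.J z‖ ^ 2 = r ^ 2 + ‖z‖ ^ 2 := by
  rw [@norm_add_sq_real, norm_smul, C.hu, inner_smul_left, C.huJ, C.J.norm_map]
  simp

lemma norm_kk (C : Cod K) {t : ℝ} (ht : 0 < t) (x : HH K) : ‖kk C t x‖ = t := by
  have h1 : ‖kk C t x‖ ^ 2 = t ^ 2 := by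
    rw [kk, norm_comb, rho, Real.sq_sqrt]
    · ring
    · have := norm_tt_le ht x
      have h0 := norm_nonneg (tt t x)
      nlinarith
  exact (sq_eq_sq₀ (norm_nonneg _) ht.le).1 h1

lemma norm_tt_sub_le (C : Cod K) (t s : ℝ) (x y : HH K) :
    ‖tt t x - tt s y‖ ≤ ‖kk C t x - kk C s y‖ := by
  have h : kk C t x - kk C s y = (rho t x - rho s y) • C.u + C.J (tt t x - tt s y) := by
    simp only [kk, map_sub, sub_smul]; abel
  have h2 : ‖tt t x - tt s y‖ ^ 2 ≤ ‖kk C t x - kk C s y‖ ^ 2 := by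
    rw [h, norm_comb]; nlinarith [sq_nonneg (rho t x - rho s y)]
  exact le_of_sq_le_sq h2 (norm_nonneg _)

lemma cc_mem (C : Cod K) {t : ℝ} (ht : 0 < t) (x : HH K) :
    Memℓp (E := fun _ : ℕ => K) (fun n => ph t x n • kk C t x) 2 := by
  rw [memlp_iff]
  have h := (hasSum_ph_sq ht x).summable.mul_right (‖kk C t x‖ ^ 2)
  refine h.congr fun n => ?_
  rw [norm_smul, Real.norm_eq_abs, abs_of_nonneg (ph_nonneg _ _ _), mul_pow]

/-- the code -/
def cc (C : Cod K) (t : ℝ) (x : HH K) : HH K :=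
  if ht : 0 < t then ⟨fun n => ph t x n • kk C t x, cc_mem C ht x⟩ else 0

lemma cc_apply (C : Cod K) {t : ℝ} (ht : 0 < t) (x : HH K) (n : ℕ) :
    cc C t x n = ph t x n • kk C t x := by
  simp only [cc, dif_pos ht]

lemma norm_cc (C : Cod K) {t : ℝ} (ht : 0 < t) (x : HH K) : ‖cc C t x‖ = t := by
  have h1 : ‖cc C t x‖ ^ 2 = t ^ 2 := by
    rw [norm_sq]
    have h2 : ∀ n, ‖cc C t x n‖ ^ 2 = ph t x n ^ 2 * t ^ 2 := fun n => by
      rw [cc_apply C ht, norm_smul, Real.norm_eq_abs, abs_of_nonneg (ph_nonneg _ _ _), mul_pow,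
        norm_kk C ht]
    simp_rw [h2]
    rw [tsum_mul_right, (hasSum_ph_sq ht x).tsum_eq, one_mul]
  exact (sq_eq_sq₀ (norm_nonneg _) ht.le).1 h1

/-- the codes are at least as far apart as the tails, up to a constant -/
lemma norm_cc_sub (C : Cod K) {t s : ℝ} (ht : 0 < t) (hs : 0 < s) (x y : HH K) :
    7 / 10 * ‖tt t x - tt s y‖ ≤ ‖cc C t x - cc C s y‖ := by
  set k := kk C t x
  set l := kk C s y
  set a := ph t x
  set b := ph s y
  have ha := hasSum_ph_sq ht x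
  have hb := hasSum_ph_sq hs y
  have hab : Summable fun n => a n * b n := by
    refine Summable.of_nonneg_of_le (fun n => mul_nonneg (ph_nonneg _ _ _) (ph_nonneg _ _ _))
      (fun n => ?_) (ha.summable.add hb.summable)
    nlinarith [sq_nonneg (a n - b n), sq_nonneg (a n), sq_nonneg (b n)]
  set κ := ∑' n, a n * b n with hκ
  have hκ0 : 0 ≤ κ := tsum_nonneg fun n => mul_nonneg (ph_nonneg _ _ _) (ph_nonneg _ _ _)
  have hκ1 : κ ≤ 1 := by
    have h1 : ∑' n, a n * b n ≤ ∑' n, (1 / 2 * (a n ^ 2) + 1 / 2 * (b n ^ 2)) := by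
      refine hab.tsum_le_tsum (fun n => ?_) ((ha.summable.mul_left _).add (hb.summable.mul_left _))
      nlinarith [sq_nonneg (a n - b n)]
    rw [(ha.summable.mul_left _).tsum_add (hb.summable.mul_left _), tsum_mul_left, tsum_mul_left,
      ha.tsum_eq, hb.tsum_eq] at h1
    linarith
  have hnorm : ‖cc C t x - cc C s y‖ ^ 2 = ‖k‖ ^ 2 + ‖l‖ ^ 2 - 2 * κ * ⟪k, l⟫ := by
    rw [norm_sq]
    have h2 : ∀ n, ‖(cc C t x - cc C s y : HH K) n‖ ^ 2
        = a n ^ 2 * ‖k‖ ^ 2 + b n ^ 2 * ‖l‖ ^ 2 - (a n * b n) * (2 * ⟪k, l⟫) := fun n => by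
      rw [lp.coeFn_sub, Pi.sub_apply, cc_apply C ht, cc_apply C hs, @norm_sub_sq_real,
        norm_smul, norm_smul, inner_smul_left, inner_smul_right]
      simp only [Real.norm_eq_abs, mul_pow, sq_abs, RCLike.conj_to_real]
      ring
    simp_rw [h2]
    rw [((ha.summable.mul_right _).add (hb.summable.mul_right _)).tsum_sub (hab.mul_right _),
      (ha.summable.mul_right _).tsum_add (hb.summable.mul_right _), tsum_mul_right, tsum_mul_right,
      tsum_mul_right, ha.tsum_eq, hb.tsum_eq]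
    ring
  have hkl : ‖k - l‖ ^ 2 = ‖k‖ ^ 2 + ‖l‖ ^ 2 - 2 * ⟪k, l⟫ := by
    rw [@norm_sub_sq_real]; ring
  have hcs := abs_real_inner_le_norm k l
  have hcs1 := le_abs_self ⟪k, l⟫
  have hcs2 := neg_abs_le ⟪k, l⟫
  have hlow : 1 / 2 * ‖k - l‖ ^ 2 ≤ ‖cc C t x - cc C s y‖ ^ 2 := by
    rw [hnorm, hkl]
    have h3 : -(‖k‖ * ‖l‖) ≤ (1 - 2 * κ) * ⟪k, l⟫ := by
      have h4 : |(1 - 2 * κ) * ⟪k, l⟫| ≤ 1 * (‖k‖ * ‖l‖) := by
        rw [abs_mul]
        exact mul_le_mul (abs_le.2 ⟨by linarith, by linarith⟩) hcs (abs_nonneg _) zero_le_one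
      have := neg_abs_le ((1 - 2 * κ) * ⟪k, l⟫)
      linarith
    nlinarith [sq_nonneg (‖k‖ - ‖l‖)]
  have hle := norm_tt_sub_le C t s x y
  have h5 : (7 / 10 * ‖tt t x - tt s y‖) ^ 2 ≤ ‖cc C t x - cc C s y‖ ^ 2 := by
    have h6 : ‖tt t x - tt s y‖ ^ 2 ≤ ‖k - l‖ ^ 2 := by gcongr
    nlinarith [sq_nonneg ‖tt t x - tt s y‖]
  exact le_of_sq_le_sq h5 (norm_nonneg _)

/-- the map on slices -/
def ff (C : Cod K) (t : ℝ) (x : HH K) : HH K := hh t x + cc C t x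

lemma norm_ff_sub_self (C : Cod K) {t : ℝ} (ht : 0 < t) (x : HH K) : ‖ff C t x - x‖ ≤ 2 * t := by
  have h : ff C t x - x = cc C t x - tt t x := by simp [ff, tt]; abel
  rw [h]
  calc ‖cc C t x - tt t x‖ ≤ ‖cc C t x‖ + ‖tt t x‖ := norm_sub_le _ _
    _ ≤ t + t := add_le_add (norm_cc C ht x).le (norm_tt_le ht x)
    _ = 2 * t := by ring

lemma hd_hh {t : ℝ} (ht : 0 < t) (x : HH K) {p : ℕ} (hp : nn t x ≤ p) : hd p (hh t x) = hh t x := by
  ext i
  rw [hd_apply]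
  split_ifs with h
  · rw [hh_apply, ps_eq_zero' ht (hp.trans h)]; simp
  · rfl

lemma tl_hh {t : ℝ} (ht : 0 < t) (x : HH K) {p : ℕ} (hp : nn t x ≤ p) : tl p (hh t x) = 0 := by
  ext i
  rw [tl_apply]
  split_ifs with h
  · rw [hh_apply, ps_eq_zero' ht (hp.trans h)]; simp
  · rfl

lemma tl_cc (C : Cod K) {t : ℝ} (ht : 0 < t) (x : HH K) {p : ℕ} (hp : p ≤ nn t x) :
    tl p (cc C t x) = cc C t x := by
  ext i
  rw [tl_apply]
  split_ifs with h
  · rfl
  · rw [cc_apply C ht, ph_eq_zero ht (by omega)]; simp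

lemma hd_cc (C : Cod K) {t : ℝ} (ht : 0 < t) (x : HH K) {p : ℕ} (hp : p ≤ nn t x) :
    hd p (cc C t x) = 0 := by
  ext i
  rw [hd_apply]
  split_ifs with h
  · rfl
  · rw [cc_apply C ht, ph_eq_zero ht (by omega)]; simp

/-- the image of a slice stays away from the origin -/
lemma norm_ff_ge (C : Cod K) {t : ℝ} (ht : 0 < t) (x : HH K) : t ≤ ‖ff C t x‖ := by
  have h1 := norm_tl_le (nn t x) (ff C t x)
  rw [ff, tl_add, tl_hh ht x le_rfl, tl_cc C ht x le_rfl, zero_add, norm_cc C ht] at h1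
  exact h1

/-- key estimate -/
lemma key (C : Cod K) {t s : ℝ} (ht : 0 < t) (hs : 0 < s) (x y : HH K) {p : ℕ}
    (hx : hd p (hh t x) = hh t x) (hy : hd p (hh s y) = hh s y)
    (hx' : tl p (hh t x) = 0) (hy' : tl p (hh s y) = 0)
    (hc : tl p (cc C s y) = cc C s y) (hc' : hd p (cc C s y) = 0) :
    7 / 10 * ‖x - y‖ ≤ 2 * ‖ff C t x - ff C s y‖ + 2 * ‖hd p (cc C t x)‖ ∧
    s ≤ ‖ff C t x - ff C s y‖ + ‖tl p (cc C t x)‖ := by
  set D := ‖ff C t x - ff C s y‖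
  have h1 : hd p (ff C t x - ff C s y) = hh t x - hh s y + hd p (cc C t x) := by
    rw [ff, ff, hd_sub, hd_add, hd_add, hx, hy, hc']; abel
  have h2 : tl p (ff C t x - ff C s y) = tl p (cc C t x) - cc C s y := by
    rw [ff, ff, tl_sub, tl_add, tl_add, hx', hy', hc]; abel
  have h3 : ‖hh t x - hh s y + hd p (cc C t x)‖ ≤ D := by rw [← h1]; exact norm_hd_le _ _
  have h4 : ‖tl p (cc C t x) - cc C s y‖ ≤ D := by rw [← h2]; exact norm_tl_le _ _
  have h5 : ‖hh t x - hh s y‖ ≤ D + ‖hd p (cc C t x)‖ := by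
    calc ‖hh t x - hh s y‖ = ‖(hh t x - hh s y + hd p (cc C t x)) - hd p (cc C t x)‖ := by
          congr 1; abel
      _ ≤ _ := (norm_sub_le _ _).trans (by linarith)
  have h6 : ‖cc C t x - cc C s y‖ ≤ D + ‖hd p (cc C t x)‖ := by
    calc ‖cc C t x - cc C s y‖ = ‖(tl p (cc C t x) - cc C s y) + hd p (cc C t x)‖ := by
          congr 1
          conv_lhs => rw [← hd_add_tl p (cc C t x)]
          abel
      _ ≤ _ := (norm_add_le _ _).trans (by linarith)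
  have h7 := norm_cc_sub C ht hs x y
  have h8 : ‖x - y‖ ≤ ‖hh t x - hh s y‖ + ‖tt t x - tt s y‖ := by
    calc ‖x - y‖ = ‖(hh t x - hh s y) + (tt t x - tt s y)‖ := by
          congr 1
          conv_lhs => rw [← hh_add_tt t x, ← hh_add_tt s y]
          abel
      _ ≤ _ := norm_add_le _ _
  have hD := norm_nonneg (hh t x - hh s y)
  refine ⟨by linarith, ?_⟩
  have h9 : ‖cc C s y‖ ≤ ‖tl p (cc C t x) - cc C s y‖ + ‖tl p (cc C t x)‖ := by
    calc ‖cc C s y‖ = ‖tl p (cc C t x) - (tl p (cc C t x) - cc C s y)‖ := by congr 1; abel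
      _ ≤ _ := (norm_sub_le _ _).trans (by linarith)
  rw [norm_cc C hs] at h9
  linarith

end Pool.Agent.Y306.Nir
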