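import Mathlib
import Pool.Agent.Y306.NirB

/-! # Nirenberg's expanding map problem: expansion and continuity -/

open scoped ENNReal Topology RealInnerProductSpace
open Filter

noncomputable section

namespace Pool.Agent.Y306.Nir

variable {K : Type*} [NormedAddCommGroup K] [InnerProductSpace ℝ K]

lemma hd_hh' {t : ℝ} (ht : 0 < t) (x : HH K) {p : ℕ} (hp : ‖tl p x‖ ≤ t / 2) :
    hd p (hh t x) = hh t x := by
  ext i
  rw [hd_apply]
  split_ifs with h
  · rw [hh_apply, ps_eq_zero ht ((norm_tl_anti h x).trans hp)]; simp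
  · rfl

lemma tl_hh' {t : ℝ} (ht : 0 < t) (x : HH K) {p : ℕ} (hp : ‖tl p x‖ ≤ t / 2) :
    tl p (hh t x) = 0 := by
  ext i
  rw [tl_apply]
  split_ifs with h
  · rw [hh_apply, ps_eq_zero ht ((norm_tl_anti h x).trans hp)]; simp
  · rfl

/-- the far case, ordered version -/
lemma far (C : Cod K) {t s T : ℝ} (ht : 0 < t) (hs : 0 < s) (htT : t ≤ T)
    (hsT : (1 - 1 / 16384) * T ≤ s) (x y : HH K) (hn : nn t x ≤ nn s y)
    (hd8 : T / 8 ≤ ‖x - y‖) : 1 / 16384 * T ≤ ‖ff C t x - ff C s y‖ := by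
  by_contra hlt
  push Not at hlt
  have hT : 0 < T := ht.trans_le htT
  obtain ⟨h1, h2⟩ := key C ht hs x y (p := nn s y) (hd_hh ht x hn) (hd_hh hs y le_rfl)
    (tl_hh ht x hn) (tl_hh hs y le_rfl) (tl_cc C hs y le_rfl) (hd_cc C hs y le_rfl)
  have h3 := norm_sq_hd_add_tl (nn s y) (cc C t x)
  rw [norm_cc C ht] at h3
  set a := ‖hd (nn s y) (cc C t x)‖
  set b := ‖tl (nn s y) (cc C t x)‖
  have ha : 0 ≤ a := norm_nonneg _
  have hb : 0 ≤ b := norm_nonneg _
  have h4 : (1 - 2 / 16384) * T ≤ b := by linarith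
  have h5 : a ^ 2 ≤ (T / 64) ^ 2 := by
    have h6 : ((1 - 2 / 16384) * T) ^ 2 ≤ b ^ 2 := by
      apply pow_le_pow_left₀ _ h4
      nlinarith
    have h7 : t ^ 2 ≤ T ^ 2 := by gcongr
    nlinarith [sq_nonneg T]
  have h8 : a ≤ T / 64 := le_of_sq_le_sq h5 (by positivity)
  linarith

/-- expansion on slices -/
lemma expand (C : Cod K) {t s : ℝ} (ht : 0 < t) (hs : 0 < s) (x y : HH K) {M : ℝ}
    (h1 : |t - s| ≤ M) (h2 : ‖ff C t x - ff C s y‖ ≤ M) :
    |t - s| + ‖x - y‖ ≤ 262144 * M := by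
  set T := max t s with hT
  have htT : t ≤ T := le_max_left _ _
  have hsT : s ≤ T := le_max_right _ _
  have hT0 : 0 < T := ht.trans_le htT
  have hδ := abs_nonneg (t - s)
  have hd := norm_nonneg (x - y)
  have hM : 0 ≤ M := hδ.trans h1
  have hTs : T - |t - s| ≤ s ∧ T - |t - s| ≤ t := by
    constructor
    · rcases le_total t s with h | h
      · rw [hT, max_eq_right h]; linarith
      · rw [hT, max_eq_left h, abs_of_nonneg (by linarith)]; linarith
    · rcases le_total t s with h | h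
      · rw [hT, max_eq_right h, abs_of_nonpos (by linarith)]; linarith
      · rw [hT, max_eq_left h]; linarith
  by_cases hc1 : 8 * T ≤ ‖x - y‖
  · have h3 := norm_ff_sub_self C ht x
    have h4 := norm_ff_sub_self C hs y
    have h5 : ‖x - y‖ ≤ ‖ff C t x - ff C s y‖ + 2 * t + 2 * s := by
      calc ‖x - y‖ = ‖(ff C t x - ff C s y) - (ff C t x - x) + (ff C s y - y)‖ := by
            congr 1; abel
        _ ≤ ‖ff C t x - ff C s y‖ + ‖ff C t x - x‖ + ‖ff C s y - y‖ :=
            (norm_add_le _ _).trans (by gcongr; exact norm_sub_le _ _)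
        _ ≤ _ := by linarith
    linarith
  push Not at hc1
  by_cases hc2 : 1 / 16384 * T ≤ M
  · linarith
  push Not at hc2
  have ht1 : (1 - 1 / 16384) * T ≤ t := by linarith [hTs.2]
  have hs1 : (1 - 1 / 16384) * T ≤ s := by linarith [hTs.1]
  by_cases hc3 : T / 8 ≤ ‖x - y‖
  · exfalso
    rcases le_total (nn t x) (nn s y) with hn | hn
    · have := far C ht hs htT hs1 x y hn hc3
      linarith
    · have := far C hs ht hsT ht1 y x hn (by rw [norm_sub_rev]; exact hc3)
      rw [norm_sub_rev] at this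
      linarith
  push Not at hc3
  -- close case
  set p := min (nn t x) (nn s y) with hp
  have hsmall : ‖tl p x‖ ≤ t / 2 ∧ ‖tl p y‖ ≤ s / 2 := by
    rcases le_total (nn t x) (nn s y) with hn | hn
    · rw [hp, min_eq_left hn]
      have h3 := nn_spec ht x
      have h4 := norm_tl_sub (nn t x) y x
      rw [norm_sub_rev] at h4
      constructor <;> linarith
    · rw [hp, min_eq_right hn]
      have h3 := nn_spec hs y
      have h4 := norm_tl_sub (nn s y) x y
      constructor <;> linarith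
  obtain ⟨h3, -⟩ := key C ht hs x y (p := p) (hd_hh' ht x hsmall.1) (hd_hh' hs y hsmall.2)
    (tl_hh' ht x hsmall.1) (tl_hh' hs y hsmall.2) (tl_cc C hs y (min_le_right _ _))
    (hd_cc C hs y (min_le_right _ _))
  rw [hd_cc C ht x (min_le_left _ _), norm_zero] at h3
  linarith

/-! ### continuity -/

lemma eq_sum_single {N : ℕ} {y : HH K} (h : ∀ n, N ≤ n → y n = 0) :
    y = ∑ i ∈ Finset.range N, lp.single 2 i (y i) := by
  ext n
  rw [lp.coeFn_sum, Finset.sum_apply]
  by_cases hn : n < N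
  · rw [Finset.sum_eq_single n]
    · rw [lp.single_apply_self]
    · intro b _ hb
      rw [lp.single_apply_ne _ _ _ (Ne.symm hb)]
    · intro h'; exact absurd (Finset.mem_range.2 hn) h'
  · rw [h n (by omega), Finset.sum_eq_zero]
    intro b hb
    rw [lp.single_apply_ne]
    have := Finset.mem_range.1 hb
    omega

lemma continuous_eval (n : ℕ) : Continuous fun x : HH K => x n :=
  (continuous_apply n).comp (lp.uniformContinuous_coe (E := fun _ : ℕ => K) (p := 2)).continuous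

lemma eventually_tl {t₀ : ℝ} (ht₀ : 0 < t₀) (x₀ : HH K) :
    ∃ M, ∀ᶠ z : ℝ × HH K in 𝓝 (t₀, x₀), 0 < z.1 ∧ ‖tl M z.2‖ ≤ z.1 / 8 := by
  obtain ⟨M, hM⟩ := exists_tl_lt x₀ (show (0:ℝ) < t₀ / 8 by positivity)
  refine ⟨M, ?_⟩
  have h1 : ∀ᶠ z : ℝ × HH K in 𝓝 (t₀, x₀), 0 < z.1 :=
    (isOpen_lt continuous_const continuous_fst).mem_nhds ht₀
  have h2 : ∀ᶠ z : ℝ × HH K in 𝓝 (t₀, x₀), ‖tl M z.2‖ < z.1 / 8 :=
    (isOpen_lt ((continuous_norm_tl M).comp continuous_snd) (continuous_fst.div_const _)).mem_nhds hM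
  filter_upwards [h1, h2] with z hz1 hz2 using ⟨hz1, hz2.le⟩

lemma continuousAt_ps {t₀ : ℝ} (ht₀ : 0 < t₀) (x₀ : HH K) (n : ℕ) :
    ContinuousAt (fun z : ℝ × HH K => ps z.1 z.2 n) (t₀, x₀) := by
  unfold ps
  refine continuous_psi.continuousAt.comp ?_
  exact ((continuous_norm_tl n).comp continuous_snd).continuousAt.div continuousAt_fst ht₀.ne'

lemma continuousAt_gg {t₀ : ℝ} (ht₀ : 0 < t₀) (x₀ : HH K) (n : ℕ) :
    ContinuousAt (fun z : ℝ × HH K => gg z.1 z.2 n) (t₀, x₀) := by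
  unfold gg
  refine continuous_chi.continuousAt.comp ?_
  exact ((continuous_norm_tl n).comp continuous_snd).continuousAt.div continuousAt_fst ht₀.ne'

lemma continuousAt_ph {t₀ : ℝ} (ht₀ : 0 < t₀) (x₀ : HH K) (n : ℕ) :
    ContinuousAt (fun z : ℝ × HH K => ph z.1 z.2 n) (t₀, x₀) := by
  unfold ph
  refine Real.continuous_sqrt.continuousAt.comp ?_
  cases n with
  | zero => exact continuousAt_gg ht₀ x₀ 0
  | succ n => exact (continuousAt_gg ht₀ x₀ (n + 1)).sub (continuousAt_gg ht₀ x₀ n)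

lemma continuousAt_hh {t₀ : ℝ} (ht₀ : 0 < t₀) (x₀ : HH K) :
    ContinuousAt (fun z : ℝ × HH K => hh z.1 z.2) (t₀, x₀) := by
  obtain ⟨M, hM⟩ := eventually_tl ht₀ x₀
  have h1 : (fun z : ℝ × HH K => hh z.1 z.2) =ᶠ[𝓝 (t₀, x₀)]
      fun z => ∑ i ∈ Finset.range M, lp.single 2 i (ps z.1 z.2 i • z.2 i) := by
    filter_upwards [hM] with z hz
    refine eq_sum_single fun n hn => ?_
    rw [hh_apply, ps_eq_zero hz.1 (by linarith [norm_tl_anti hn z.2]), zero_smul]
  refine ContinuousAt.congr ?_ h1.symm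
  refine tendsto_finsetSum _ fun i _ => ?_
  refine ((lp.isometry_single (E := fun _ : ℕ => K) (p := 2) i).continuous.continuousAt).comp ?_
  exact (continuousAt_ps ht₀ x₀ i).smul ((continuous_eval i).comp continuous_snd).continuousAt

lemma continuousAt_tt {t₀ : ℝ} (ht₀ : 0 < t₀) (x₀ : HH K) :
    ContinuousAt (fun z : ℝ × HH K => tt z.1 z.2) (t₀, x₀) :=
  continuousAt_snd.sub (continuousAt_hh ht₀ x₀)

lemma continuousAt_kk (C : Cod K) {t₀ : ℝ} (ht₀ : 0 < t₀) (x₀ : HH K) :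
    ContinuousAt (fun z : ℝ × HH K => kk C z.1 z.2) (t₀, x₀) := by
  unfold kk rho
  refine ContinuousAt.add (ContinuousAt.smul ?_ continuousAt_const) ?_
  · refine Real.continuous_sqrt.continuousAt.comp ?_
    exact (continuousAt_fst.pow 2).sub ((continuousAt_tt ht₀ x₀).norm.pow 2)
  · exact C.J.continuous.continuousAt.comp (continuousAt_tt ht₀ x₀)

lemma continuousAt_cc (C : Cod K) {t₀ : ℝ} (ht₀ : 0 < t₀) (x₀ : HH K) :
    ContinuousAt (fun z : ℝ × HH K => cc C z.1 z.2) (t₀, x₀) := by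
  obtain ⟨M, hM⟩ := eventually_tl ht₀ x₀
  have h1 : (fun z : ℝ × HH K => cc C z.1 z.2) =ᶠ[𝓝 (t₀, x₀)]
      fun z => ∑ i ∈ Finset.range (M + 1), lp.single 2 i (ph z.1 z.2 i • kk C z.1 z.2) := by
    filter_upwards [hM] with z hz
    have h2 : cc C z.1 z.2 = ∑ i ∈ Finset.range (M + 1), lp.single 2 i (cc C z.1 z.2 i) := by
      refine eq_sum_single fun n hn => ?_
      rw [cc_apply C hz.1, ph_eq_zero_of_large hz.1 hz.2 hn, zero_smul]
    rw [h2]
    refine Finset.sum_congr rfl fun i _ => ?_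
    rw [cc_apply C hz.1]
  refine ContinuousAt.congr ?_ h1.symm
  refine tendsto_finsetSum _ fun i _ => ?_
  refine ((lp.isometry_single (E := fun _ : ℕ => K) (p := 2) i).continuous.continuousAt).comp ?_
  exact (continuousAt_ph ht₀ x₀ i).smul (continuousAt_kk C ht₀ x₀)

lemma continuousAt_ff (C : Cod K) {t₀ : ℝ} (ht₀ : 0 < t₀) (x₀ : HH K) :
    ContinuousAt (fun z : ℝ × HH K => ff C z.1 z.2) (t₀, x₀) :=
  (continuousAt_hh ht₀ x₀).add (continuousAt_cc C ht₀ x₀)

/-! ### the map on `ℝ × H` -/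

abbrev EE (K : Type*) [NormedAddCommGroup K] [InnerProductSpace ℝ K] := WithLp 2 (ℝ × HH K)

def gf (C : Cod K) (t : ℝ) (x : HH K) : HH K := if 0 < t then ff C t x else x

def F (C : Cod K) (z : EE K) : EE K := WithLp.toLp 2 (z.fst, gf C z.fst z.snd)

lemma norm_fst_le (z : EE K) : |z.fst| ≤ ‖z‖ := by
  have h := WithLp.prod_norm_sq_eq_of_L2 z
  rw [Real.norm_eq_abs] at h
  exact le_of_sq_le_sq (by nlinarith [sq_nonneg ‖z.snd‖]) (norm_nonneg _)

lemma norm_snd_le (z : EE K) : ‖z.snd‖ ≤ ‖z‖ := by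
  have h := WithLp.prod_norm_sq_eq_of_L2 z
  exact le_of_sq_le_sq (by nlinarith [sq_nonneg ‖z.fst‖]) (norm_nonneg _)

lemma norm_le_add (z : EE K) : ‖z‖ ≤ |z.fst| + ‖z.snd‖ := by
  have h := WithLp.prod_norm_sq_eq_of_L2 z
  rw [Real.norm_eq_abs] at h
  have h1 := abs_nonneg z.fst
  have h2 := norm_nonneg z.snd
  exact le_of_sq_le_sq (by nlinarith) (by positivity)

lemma gf_expand (C : Cod K) (t s : ℝ) (x y : HH K) {M : ℝ}
    (h1 : |t - s| ≤ M) (h2 : ‖gf C t x - gf C s y‖ ≤ M) :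
    |t - s| + ‖x - y‖ ≤ 262144 * M := by
  have hM : 0 ≤ M := (abs_nonneg _).trans h1
  unfold gf at h2
  by_cases ht : 0 < t
  · by_cases hs : 0 < s
    · rw [if_pos ht, if_pos hs] at h2
      exact expand C ht hs x y h1 h2
    · rw [if_pos ht, if_neg hs] at h2
      push Not at hs
      have h3 := norm_ff_sub_self C ht x
      have h4 : t ≤ |t - s| := (by linarith : t ≤ t - s).trans (le_abs_self _)
      have h5 : ‖x - y‖ ≤ ‖ff C t x - y‖ + ‖ff C t x - x‖ := by
        calc ‖x - y‖ = ‖(ff C t x - y) - (ff C t x - x)‖ := by congr 1; abel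
          _ ≤ _ := norm_sub_le _ _
      linarith
  · by_cases hs : 0 < s
    · rw [if_neg ht, if_pos hs] at h2
      push Not at ht
      have h3 := norm_ff_sub_self C hs y
      have h4 : s ≤ |t - s| := (by linarith : s ≤ -(t - s)).trans (neg_le_abs _)
      have h5 : ‖x - y‖ ≤ ‖x - ff C s y‖ + ‖ff C s y - y‖ := by
        calc ‖x - y‖ = ‖(x - ff C s y) + (ff C s y - y)‖ := by congr 1; abel
          _ ≤ _ := norm_add_le _ _
      linarith
    · rw [if_neg ht, if_neg hs] at h2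
      linarith

lemma F_expand (C : Cod K) (z w : EE K) : ‖z - w‖ ≤ 262144 * ‖F C z - F C w‖ := by
  have h1 : |z.fst - w.fst| ≤ ‖F C z - F C w‖ := norm_fst_le (F C z - F C w)
  have h2 : ‖gf C z.fst z.snd - gf C w.fst w.snd‖ ≤ ‖F C z - F C w‖ := norm_snd_le (F C z - F C w)
  exact (norm_le_add (z - w)).trans (gf_expand C _ _ _ _ h1 h2)

lemma F_eq_self (C : Cod K) {z : EE K} (hz : z.fst ≤ 0) : F C z = z := by
  unfold F gf
  rw [if_neg (not_lt.2 hz)]
  rfl

lemma norm_F_sub_self (C : Cod K) (z : EE K) : ‖F C z - z‖ ≤ 2 * max z.fst 0 := by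
  by_cases hz : 0 < z.fst
  · refine (norm_le_add _).trans ?_
    have h1 : (F C z - z).fst = 0 := by
      show z.fst - z.fst = 0
      ring
    have h2 : (F C z - z).snd = ff C z.fst z.snd - z.snd := by
      show gf C z.fst z.snd - z.snd = _
      rw [gf, if_pos hz]
    rw [h1, h2, abs_zero, zero_add, max_eq_left hz.le]
    exact norm_ff_sub_self C hz _
  · rw [F_eq_self C (not_lt.1 hz), sub_self, norm_zero]
    positivity

lemma continuous_F (C : Cod K) : Continuous (F C) := by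
  rw [continuous_iff_continuousAt]
  intro z₀
  by_cases hz : 0 < z₀.fst
  · have h1 : ContinuousAt (fun z : EE K => ff C z.fst z.snd) z₀ := by
      have h2 : ContinuousAt (fun z : EE K => (z.fst, z.snd)) z₀ :=
        (WithLp.prod_continuous_ofLp 2 ℝ (HH K)).continuousAt
      exact ContinuousAt.comp (f := fun z : EE K => (z.fst, z.snd))
        (g := fun z : ℝ × HH K => ff C z.1 z.2) (continuousAt_ff C hz z₀.snd) h2
    have h3 : ∀ᶠ z : EE K in 𝓝 z₀, 0 < z.fst :=
      (isOpen_lt continuous_const (WithLp.fstL 2 ℝ ℝ (HH K)).continuous).mem_nhds hz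
    have h4 : ContinuousAt (fun z : EE K => gf C z.fst z.snd) z₀ := by
      refine h1.congr ?_
      filter_upwards [h3] with z hz'
      rw [gf, if_pos hz']
    have h5 : ContinuousAt (fun z : EE K => (z.fst, gf C z.fst z.snd)) z₀ :=
      (WithLp.fstL 2 ℝ ℝ (HH K)).continuous.continuousAt.prodMk h4
    exact (WithLp.prod_continuous_toLp 2 ℝ (HH K)).continuousAt.comp h5
  · push Not at hz
    rw [Metric.continuousAt_iff]
    intro ε hε
    refine ⟨ε / 3, by positivity, fun z hz' => ?_⟩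
    rw [dist_eq_norm] at hz' ⊢
    rw [F_eq_self C hz]
    have h1 := norm_F_sub_self C z
    have h2 : max z.fst 0 ≤ ‖z - z₀‖ := by
      refine max_le ?_ (norm_nonneg _)
      have h3 := norm_fst_le (z - z₀)
      have h4 : (z - z₀).fst = z.fst - z₀.fst := rfl
      rw [h4] at h3
      have := le_abs_self (z.fst - z₀.fst)
      linarith
    calc ‖F C z - z₀‖ = ‖(F C z - z) + (z - z₀)‖ := by congr 1; abel
      _ ≤ ‖F C z - z‖ + ‖z - z₀‖ := norm_add_le _ _
      _ < ε := by linarith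

/-- the open set of points not in the image -/
lemma F_ne (C : Cod K) {w : EE K} (h1 : 0 < w.fst) (h2 : ‖w.snd‖ < w.fst) (z : EE K) :
    F C z ≠ w := by
  intro h
  have h3 : z.fst = w.fst := by rw [← h]; rfl
  have h4 : gf C z.fst z.snd = w.snd := by rw [← h]; rfl
  rw [gf, if_pos (by rw [h3]; exact h1)] at h4
  have h5 := norm_ff_ge C (t := z.fst) (by rw [h3]; exact h1) z.snd
  rw [h4] at h5
  linarith

end Pool.Agent.Y306.Nir
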