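import Mathlib
import Pool.Agent.Y306.NirC

/-! # Nirenberg's expanding map problem: transfer to every infinite-dimensional Hilbert space -/

open scoped ENNReal Topology RealInnerProductSpace
open Filter

noncomputable section

namespace Pool.Agent.Y306.Nir

/-- real `ℓ²` -/
abbrev K0 := lp (fun _ : ℕ => ℝ) 2

lemma norm_sq0 (x : K0) : ‖x‖ ^ 2 = ∑' n, x n ^ 2 := by
  have h := norm_sq (K := ℝ) x
  simpa [Real.norm_eq_abs, sq_abs] using h

lemma summable_sq0 (x : K0) : Summable fun n => x n ^ 2 := by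
  have h := summable_sq (K := ℝ) x
  simpa [Real.norm_eq_abs, sq_abs] using h

def Jfun (x : HH K0) : ℕ → ℝ
  | 0 => 0
  | m + 1 => x (Nat.unpair m).1 (Nat.unpair m).2

lemma hasSum_prod (x : HH K0) : HasSum (fun p : ℕ × ℕ => x p.1 p.2 ^ 2) (‖x‖ ^ 2) := by
  have h1 : Summable fun p : ℕ × ℕ => x p.1 p.2 ^ 2 := by
    rw [summable_prod_of_nonneg (fun p => sq_nonneg _)]
    refine ⟨fun n => summable_sq0 (x n), ?_⟩
    have h2 : (fun n => ∑' k, x n k ^ 2) = fun n => ‖x n‖ ^ 2 := by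
      ext n; rw [norm_sq0]
    rw [h2]
    exact summable_sq x
  have h3 : ∑' p : ℕ × ℕ, x p.1 p.2 ^ 2 = ‖x‖ ^ 2 := by
    rw [h1.tsum_prod, norm_sq]
    congr 1; ext n
    rw [norm_sq0]
  rw [← h3]
  exact h1.hasSum

lemma hasSum_Jfun (x : HH K0) : HasSum (fun m => Jfun x m ^ 2) (‖x‖ ^ 2) := by
  have h1 : HasSum (fun m => Jfun x (m + 1) ^ 2) (‖x‖ ^ 2) := by
    have h2 := (Nat.pairEquiv.symm.hasSum_iff (f := fun p : ℕ × ℕ => x p.1 p.2 ^ 2)).2
      (hasSum_prod x)
    exact h2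
  have h3 := (hasSum_nat_add_iff (f := fun m => Jfun x m ^ 2) 1).1 h1
  simpa [Jfun] using h3

def J0 : HH K0 →ₗᵢ[ℝ] K0 where
  toFun x := ⟨Jfun x, (memlp_iff (K := ℝ) _).2 (by
    simpa [Real.norm_eq_abs, sq_abs] using (hasSum_Jfun x).summable)⟩
  map_add' x y := by
    ext m
    cases m with
    | zero =>
      show (0:ℝ) = 0 + 0
      simp
    | succ m => rfl
  map_smul' c x := by
    ext m
    cases m with
    | zero => simp [Jfun]
    | succ m => simp [Jfun]
  norm_map' x := by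
    have h1 : ‖(⟨Jfun x, (memlp_iff (K := ℝ) _).2 (by
      simpa [Real.norm_eq_abs, sq_abs] using (hasSum_Jfun x).summable)⟩ : K0)‖ ^ 2 = ‖x‖ ^ 2 := by
      rw [norm_sq0]
      exact (hasSum_Jfun x).tsum_eq
    exact (sq_eq_sq₀ (norm_nonneg _) (norm_nonneg _)).1 h1

lemma J0_zero (x : HH K0) : J0 x 0 = 0 := rfl

def C0 : Cod K0 where
  J := J0
  u := lp.single 2 0 (1 : ℝ)
  hu := by rw [lp.norm_single (by norm_num)]; simp
  huJ x := by rw [lp.inner_single_left, J0_zero]; simp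

/-- `ℝ ⊕ ℓ²(ℓ²)` embeds isometrically into `ℓ²` -/
def emb0 : EE K0 →ₗᵢ[ℝ] K0 where
  toFun z := z.fst • C0.u + C0.J z.snd
  map_add' z w := by
    have h1 : (z + w).fst = z.fst + w.fst := rfl
    have h2 : (z + w).snd = z.snd + w.snd := rfl
    rw [h1, h2, map_add, add_smul]; abel
  map_smul' c z := by
    have h1 : (c • z).fst = c * z.fst := rfl
    have h2 : (c • z).snd = c • z.snd := rfl
    rw [h1, h2, map_smul, mul_smul, RingHom.id_apply, smul_add]
  norm_map' z := by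
    have h1 : ‖z.fst • C0.u + C0.J z.snd‖ ^ 2 = ‖z‖ ^ 2 := by
      rw [norm_comb, WithLp.prod_norm_sq_eq_of_L2, Real.norm_eq_abs, sq_abs]
    exact (sq_eq_sq₀ (norm_nonneg _) (norm_nonneg _)).1 h1

/-- `ℓ²` embeds isometrically into every infinite-dimensional Hilbert space -/
lemma exists_emb (H : Type*) [NormedAddCommGroup H] [InnerProductSpace ℝ H] [CompleteSpace H]
    (hH : ¬ FiniteDimensional ℝ H) : Nonempty (K0 →ₗᵢ[ℝ] H) := by
  obtain ⟨w, b, hb⟩ := exists_hilbertBasis ℝ H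
  have hinf : Infinite w := by
    by_contra hfin
    rw [not_infinite_iff_finite] at hfin
    have := Fintype.ofFinite w
    exact hH (b.toOrthonormalBasis.toBasis.finiteDimensional_of_finite)
  let e : ℕ ↪ w := Infinite.natEmbedding w
  have ho : Orthonormal ℝ (fun n => b (e n)) := b.orthonormal.comp e e.injective
  exact ⟨(ho.orthogonalFamily).linearIsometry⟩

/-- **Nirenberg's problem.** -/
theorem nirenberg (H : Type*) [NormedAddCommGroup H] [InnerProductSpace ℝ H] [CompleteSpace H]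
    (hH : ¬ FiniteDimensional ℝ H) :
    ∃ (f : H → H) (v : H), v ≠ 0 ∧ Continuous f ∧
      (∀ x y, ‖x - y‖ ≤ 262144 * ‖f x - f y‖) ∧
      (∀ x, ⟪v, x⟫ ≤ 0 → f x = x) ∧ ∃ w, ∃ ε > 0, ∀ x, ε ≤ ‖f x - w‖ := by
  obtain ⟨i⟩ := exists_emb H hH
  let j : EE K0 →ₗᵢ[ℝ] H := i.comp emb0
  let A : H →L[ℝ] EE K0 := (j.toContinuousLinearMap).adjoint
  have hA : ∀ (y : H) (z : EE K0), ⟪A y, z⟫ = ⟪y, j z⟫ := fun y z =>
    ContinuousLinearMap.adjoint_inner_left _ _ _
  have hAj : ∀ z, A (j z) = z := by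
    intro z
    refine ext_inner_right ℝ fun w => ?_
    rw [hA, j.inner_map_map]
  have horth : ∀ (z : EE K0) (y : H), ⟪j z, y - j (A y)⟫ = 0 := by
    intro z y
    rw [inner_sub_right, j.inner_map_map, real_inner_comm, ← hA, real_inner_comm, sub_self]
  have hnorm : ∀ (z : EE K0) (y : H), ‖j z + (y - j (A y))‖ ^ 2 = ‖z‖ ^ 2 + ‖y - j (A y)‖ ^ 2 := by
    intro z y
    rw [@norm_add_sq_real, horth, j.norm_map]; ring
  let f : H → H := fun y => j (F C0 (A y)) + (y - j (A y))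
  let v : H := j (WithLp.toLp 2 ((1 : ℝ), (0 : HH K0)))
  have hfst : ∀ y, ⟪v, y⟫ = (A y).fst := by
    intro y
    rw [real_inner_comm, ← hA, WithLp.prod_inner_apply]
    simp
  refine ⟨f, v, ?_, ?_, ?_, ?_, v, 1 / 4, by norm_num, ?_⟩
  · intro h0
    have h1 : ‖v‖ = 1 := by
      show ‖j (WithLp.toLp 2 ((1 : ℝ), (0 : HH K0)))‖ = 1
      rw [j.norm_map, WithLp.norm_toLp_fst]; simp
    rw [h0, norm_zero] at h1
    exact zero_ne_one h1
  · exact (j.continuous.comp ((continuous_F C0).comp A.continuous)).add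
      (continuous_id.sub (j.continuous.comp A.continuous))
  · intro x y
    have h1 : f x - f y = j (F C0 (A x) - F C0 (A y)) + ((x - y) - j (A (x - y))) := by
      simp only [f, map_sub]; abel
    have h2 : x - y = j (A (x - y)) + ((x - y) - j (A (x - y))) := by abel
    have h3 := hnorm (F C0 (A x) - F C0 (A y)) (x - y)
    have h4 := hnorm (A (x - y)) (x - y)
    rw [← h1] at h3
    rw [← h2] at h4
    have h5 := F_expand C0 (A x) (A y)
    rw [← map_sub] at h5
    have h6 : ‖A (x - y)‖ ^ 2 ≤ (262144 * ‖F C0 (A x) - F C0 (A y)‖) ^ 2 := by gcongr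
    refine le_of_sq_le_sq ?_ (by positivity)
    rw [h4, mul_pow, h3]
    nlinarith [sq_nonneg ‖x - y - j (A (x - y))‖]
  · intro x hx
    have h1 : F C0 (A x) = A x := F_eq_self C0 (by rw [← hfst]; exact hx)
    show j (F C0 (A x)) + (x - j (A x)) = x
    rw [h1]; abel
  · intro x
    have h1 : A (f x) = F C0 (A x) := by
      show A (j (F C0 (A x)) + (x - j (A x))) = _
      rw [map_add, map_sub, hAj, hAj]; abel
    have h2 : A v = WithLp.toLp 2 ((1 : ℝ), (0 : HH K0)) := hAj _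
    have h3 : ‖A (f x - v)‖ ≤ ‖f x - v‖ := by
      have h4 := hnorm (A (f x - v)) (f x - v)
      have h5 : j (A (f x - v)) + ((f x - v) - j (A (f x - v))) = f x - v := by abel
      rw [h5] at h4
      exact le_of_sq_le_sq (by nlinarith [sq_nonneg ‖f x - v - j (A (f x - v))‖]) (norm_nonneg _)
    refine le_trans ?_ h3
    rw [map_sub, h1, h2]
    set z := A x
    by_contra hlt
    push Not at hlt
    have h6 : |z.fst - 1| ≤ ‖F C0 z - WithLp.toLp 2 ((1 : ℝ), (0 : HH K0))‖ :=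
      norm_fst_le (F C0 z - WithLp.toLp 2 ((1 : ℝ), (0 : HH K0)))
    have h7 : ‖gf C0 z.fst z.snd - 0‖ ≤ ‖F C0 z - WithLp.toLp 2 ((1 : ℝ), (0 : HH K0))‖ :=
      norm_snd_le (F C0 z - WithLp.toLp 2 ((1 : ℝ), (0 : HH K0)))
    have h8 := abs_le.1 (h6.trans hlt.le)
    have h9 : 0 < z.fst := by linarith [h8.1]
    rw [sub_zero, gf, if_pos h9] at h7
    have h10 := norm_ff_ge C0 h9 z.snd
    linarith [h8.1]

/-- consequence in the form of the original question -/
theorem nirenberg' (H : Type*) [NormedAddCommGroup H] [InnerProductSpace ℝ H] [CompleteSpace H]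
    (hH : ¬ FiniteDimensional ℝ H) :
    ∃ f : H → H, Continuous f ∧ (∀ x y, ‖x - y‖ ≤ ‖f x - f y‖) ∧
      (interior (Set.range f)).Nonempty ∧ ¬ Function.Surjective f := by
  obtain ⟨f, v, hv, hf, hexp, hid, w, ε, hε, hw⟩ := nirenberg H hH
  refine ⟨fun x => (262144 : ℝ) • f x, hf.const_smul _, fun x y => ?_, ?_, ?_⟩
  · rw [← smul_sub, norm_smul]
    simpa using hexp x y
  · have hopen : IsOpen {x : H | ⟪v, x⟫ < 0} :=
      isOpen_lt (continuous_const.inner continuous_id) continuous_const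
    refine ⟨-v, mem_interior.2 ⟨{x : H | ⟪v, x⟫ < 0}, ?_, hopen, ?_⟩⟩
    · intro x hx
      refine ⟨(262144 : ℝ)⁻¹ • x, ?_⟩
      have h1 : ⟪v, (262144 : ℝ)⁻¹ • x⟫ ≤ 0 := by
        rw [inner_smul_right]
        have : ⟪v, x⟫ < 0 := hx
        nlinarith
      show (262144 : ℝ) • f ((262144 : ℝ)⁻¹ • x) = x
      rw [hid _ h1, smul_smul]; norm_num
    · show ⟪v, -v⟫ < 0
      rw [inner_neg_right, real_inner_self_eq_norm_sq]
      have : 0 < ‖v‖ := norm_pos_iff.2 hv
      nlinarith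
  · intro hs
    obtain ⟨x, hx⟩ := hs ((262144 : ℝ) • w)
    have h1 : f x = w := by
      have h2 : (262144 : ℝ) • f x = (262144 : ℝ) • w := hx
      exact smul_right_injective H (by norm_num : (262144 : ℝ) ≠ 0) h2
    have h3 := hw x
    rw [h1, sub_self, norm_zero] at h3
    linarith

end Pool.Agent.Y306.Nir
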