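import Mathlib

set_option autoImplicit false

open MeasureTheory FourierTransform Complex
open scoped ENNReal SchwartzMap

namespace Pool.Agent.Y306

noncomputable section

/-- `e(x) = exp (2 π i x)` -/
def ee (x : ℝ) : ℂ := Complex.exp (2 * Real.pi * Complex.I * x)

lemma ee_add (x y : ℝ) : ee (x + y) = ee x * ee y := by
  unfold ee; rw [← Complex.exp_add]; push_cast; ring_nf

lemma ee_zero : ee 0 = 1 := by simp [ee]

lemma norm_ee (x : ℝ) : ‖ee x‖ = 1 := by
  unfold ee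
  rw [show (2 * Real.pi * Complex.I * x : ℂ) = ((2 * Real.pi * x : ℝ) : ℂ) * Complex.I by
    push_cast; ring]
  exact Complex.norm_exp_ofReal_mul_I _

lemma ee_ne (x : ℝ) : ee x ≠ 0 := Complex.exp_ne_zero _

lemma ee_neg (x : ℝ) : ee (-x) = (ee x)⁻¹ := by
  unfold ee; rw [← Complex.exp_neg]; push_cast; ring_nf

lemma ee_sub (x y : ℝ) : ee (x - y) = ee x * (ee y)⁻¹ := by
  rw [sub_eq_add_neg, ee_add, ee_neg]

lemma ee_int (n : ℤ) : ee n = 1 := by
  unfold ee
  rw [Complex.exp_eq_one_iff]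
  exact ⟨n, by push_cast; ring⟩

lemma ee_one : ee 1 = 1 := by
  have := ee_int 1
  simpa using this

lemma continuous_ee : Continuous ee := by
  unfold ee; fun_prop

lemma ee_mul_int (x : ℝ) (n : ℤ) : ee (n * x) = ee x ^ n := by
  unfold ee
  rw [← Complex.exp_int_mul]; push_cast; ring_nf

/-- The Hilbert space `L²(ℝ)`. -/
abbrev H := Lp ℂ 2 (volume : Measure ℝ)

lemma memLp_tf (a b : ℝ) {f : ℝ → ℂ} (hf : MemLp f 2 volume) :
    MemLp (fun x => ee (b * x) * f (x - a)) 2 volume := by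
  have h1 : MemLp (fun x => f (x - a)) 2 volume :=
    hf.comp_measurePreserving (measurePreserving_sub_right volume a)
  refine h1.of_le (AEStronglyMeasurable.mul ?_ h1.1) (Filter.Eventually.of_forall fun x => ?_)
  · exact (continuous_ee.comp (by fun_prop)).aestronglyMeasurable
  · rw [norm_mul, norm_ee, one_mul]

/-- The time-frequency shift `f ↦ e(b x) f (x - a)` on `L²(ℝ)`. -/
def tf (a b : ℝ) : H →ₗᵢ[ℂ] H where
  toFun f := (memLp_tf a b (Lp.memLp f)).toLp _
  map_add' f g := by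
    apply Lp.ext
    have hs : Filter.Tendsto (fun x : ℝ => x - a) (ae volume) (ae volume) :=
      (measurePreserving_sub_right volume a).quasiMeasurePreserving.tendsto_ae
    filter_upwards [MemLp.coeFn_toLp (memLp_tf a b (Lp.memLp (f + g))),
      MemLp.coeFn_toLp (memLp_tf a b (Lp.memLp f)), MemLp.coeFn_toLp (memLp_tf a b (Lp.memLp g)),
      Lp.coeFn_add ((memLp_tf a b (Lp.memLp f)).toLp _) ((memLp_tf a b (Lp.memLp g)).toLp _),
      hs.eventually (Lp.coeFn_add f g)] with x h1 h2 h3 h4 h5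
    rw [h1, h4, Pi.add_apply, h2, h3, h5, Pi.add_apply]
    ring
  map_smul' c f := by
    apply Lp.ext
    have hs : Filter.Tendsto (fun x : ℝ => x - a) (ae volume) (ae volume) :=
      (measurePreserving_sub_right volume a).quasiMeasurePreserving.tendsto_ae
    filter_upwards [MemLp.coeFn_toLp (memLp_tf a b (Lp.memLp (c • f))),
      MemLp.coeFn_toLp (memLp_tf a b (Lp.memLp f)),
      Lp.coeFn_smul c ((memLp_tf a b (Lp.memLp f)).toLp _),
      hs.eventually (Lp.coeFn_smul c f)] with x h1 h2 h3 h4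
    rw [h1, RingHom.id_apply, h3, Pi.smul_apply, h2, h4, Pi.smul_apply, smul_eq_mul, smul_eq_mul]
    ring
  norm_map' f := by
    change ‖(memLp_tf a b (Lp.memLp f)).toLp _‖ = ‖f‖
    rw [Lp.norm_toLp, Lp.norm_def]
    congr 1
    have h1 : eLpNorm (fun x => ee (b * x) * f (x - a)) 2 volume =
        eLpNorm (fun x => f (x - a)) 2 volume := by
      apply eLpNorm_congr_norm_ae
      refine Filter.Eventually.of_forall fun x => ?_
      rw [norm_mul, norm_ee, one_mul]
    rw [h1]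
    exact eLpNorm_comp_measurePreserving (Lp.aestronglyMeasurable f)
      (measurePreserving_sub_right volume a)

lemma tf_coe (a b : ℝ) (f : H) : tf a b f =ᵐ[volume] fun x => ee (b * x) * f (x - a) :=
  MemLp.coeFn_toLp (memLp_tf a b (Lp.memLp f))

lemma comp_sub_ae {f g : ℝ → ℂ} (h : f =ᵐ[volume] g) (a : ℝ) :
    (fun x => f (x - a)) =ᵐ[volume] fun x => g (x - a) := by
  have hs : Filter.Tendsto (fun x : ℝ => x - a) (ae volume) (ae volume) :=
    (measurePreserving_sub_right volume a).quasiMeasurePreserving.tendsto_ae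
  exact hs.eventually h

lemma tf_tf (a b a' b' : ℝ) (f : H) : tf a b (tf a' b' f) = ee (-(b' * a)) • tf (a + a') (b + b') f := by
  apply Lp.ext
  filter_upwards [tf_coe a b (tf a' b' f), comp_sub_ae (tf_coe a' b' f) a,
    Lp.coeFn_smul (ee (-(b' * a))) (tf (a + a') (b + b') f), tf_coe (a + a') (b + b') f]
    with x h1 h2 h3 h4
  rw [h1, h2, h3, Pi.smul_apply, h4, smul_eq_mul, ← mul_assoc, ← mul_assoc, ← ee_add, ← ee_add]
  congr 2
  · ring
  · ring

lemma tf_zero (f : H) : tf 0 0 f = f := by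
  apply Lp.ext
  filter_upwards [tf_coe 0 0 f] with x h1
  rw [h1]; simp [ee_zero]

/-- translation of a Schwartz function as an element of `L²` -/
lemma toLp_shift (f : 𝓢(ℝ, ℂ)) (a : ℝ) :
    (SchwartzMap.compSubConstCLM ℂ a f).toLp 2 volume = tf a 0 (f.toLp 2 volume) := by
  apply Lp.ext
  filter_upwards [tf_coe a 0 (f.toLp 2 volume), SchwartzMap.coeFn_toLp f 2 volume,
    comp_sub_ae (SchwartzMap.coeFn_toLp f 2 volume) a,
    SchwartzMap.coeFn_toLp (SchwartzMap.compSubConstCLM ℂ a f) 2 volume] with x h1 h2 h3 h4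
  rw [h4, h1, h3]
  simp [ee_zero]

lemma fourier_schwartz_shift (f : 𝓢(ℝ, ℂ)) (a y : ℝ) :
    (𝓕 (SchwartzMap.compSubConstCLM ℂ a f)) y = ee (-(a * y)) * (𝓕 f) y := by
  rw [SchwartzMap.fourier_coe, SchwartzMap.fourier_coe, Real.fourier_real_eq_integral_exp_smul,
    Real.fourier_real_eq_integral_exp_smul]
  have h1 := integral_sub_right_eq_self (μ := (volume : Measure ℝ))
    (fun v : ℝ => Complex.exp (((-2 * Real.pi * (v + a) * y : ℝ) : ℂ) * Complex.I) • f v) a
  have h2 : ∀ v : ℝ, (SchwartzMap.compSubConstCLM ℂ a f) v = f (v - a) := fun v => rfl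
  simp only [h2]
  simp only [sub_add_cancel] at h1
  rw [h1, ← integral_const_mul]
  congr 1
  funext v
  rw [smul_eq_mul, smul_eq_mul, ← mul_assoc]
  congr 1
  unfold ee
  rw [← Complex.exp_add]
  congr 1
  push_cast
  ring

lemma fourierInv_schwartz_shift (f : 𝓢(ℝ, ℂ)) (a y : ℝ) :
    (𝓕⁻ (SchwartzMap.compSubConstCLM ℂ a f)) y = ee (a * y) * (𝓕⁻ f) y := by
  have h := fourier_schwartz_shift f a (-y)
  rw [SchwartzMap.fourierInv_coe, SchwartzMap.fourierInv_coe, Real.fourierInv_eq_fourier_neg,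
    Real.fourierInv_eq_fourier_neg]
  rw [SchwartzMap.fourier_coe, SchwartzMap.fourier_coe] at h
  rw [h]
  congr 2
  ring

lemma denseRange_schwartz : DenseRange (fun f : 𝓢(ℝ, ℂ) => (f.toLp 2 volume : H)) :=
  SchwartzMap.denseRange_toLpCLM ENNReal.ofNat_ne_top

lemma fourier_shift (a : ℝ) (f : H) : 𝓕 (tf a 0 f) = tf 0 (-a) (𝓕 f) := by
  refine DenseRange.induction_on (p := fun f : H => 𝓕 (tf a 0 f) = tf 0 (-a) (𝓕 f))
    denseRange_schwartz f ?_ ?_
  · exact isClosed_eq ((Lp.fourierTransformₗᵢ ℝ ℂ).continuous.comp (tf a 0).continuous)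
      ((tf 0 (-a)).continuous.comp (Lp.fourierTransformₗᵢ ℝ ℂ).continuous)
  · intro f
    change 𝓕 (tf a 0 (f.toLp 2 volume)) = tf 0 (-a) (𝓕 (f.toLp 2 volume))
    rw [← toLp_shift, SchwartzMap.toLp_fourier_eq, SchwartzMap.toLp_fourier_eq]
    apply Lp.ext
    filter_upwards [SchwartzMap.coeFn_toLp (𝓕 (SchwartzMap.compSubConstCLM ℂ a f)) 2 volume,
      tf_coe 0 (-a) ((𝓕 f).toLp 2 volume), SchwartzMap.coeFn_toLp (𝓕 f) 2 volume] with x h1 h2 h3
    rw [h1, h2, sub_zero, h3, fourier_schwartz_shift]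
    congr 2
    ring

lemma fourierInv_shift (a : ℝ) (f : H) : 𝓕⁻ (tf a 0 f) = tf 0 a (𝓕⁻ f) := by
  refine DenseRange.induction_on (p := fun f : H => 𝓕⁻ (tf a 0 f) = tf 0 a (𝓕⁻ f))
    denseRange_schwartz f ?_ ?_
  · exact isClosed_eq ((Lp.fourierTransformₗᵢ ℝ ℂ).symm.continuous.comp (tf a 0).continuous)
      ((tf 0 a).continuous.comp (Lp.fourierTransformₗᵢ ℝ ℂ).symm.continuous)
  · intro f
    change 𝓕⁻ (tf a 0 (f.toLp 2 volume)) = tf 0 a (𝓕⁻ (f.toLp 2 volume))
    rw [← toLp_shift, SchwartzMap.toLp_fourierInv_eq, SchwartzMap.toLp_fourierInv_eq]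
    apply Lp.ext
    filter_upwards [SchwartzMap.coeFn_toLp (𝓕⁻ (SchwartzMap.compSubConstCLM ℂ a f)) 2 volume,
      tf_coe 0 a ((𝓕⁻ f).toLp 2 volume), SchwartzMap.coeFn_toLp (𝓕⁻ f) 2 volume] with x h1 h2 h3
    rw [h1, h2, sub_zero, h3, fourierInv_schwartz_shift]

lemma fourier_mod (b : ℝ) (f : H) : 𝓕 (tf 0 b f) = tf b 0 (𝓕 f) := by
  have h := fourierInv_shift b (𝓕 f)
  have h1 : 𝓕⁻ (𝓕 f) = f := FourierPair.fourierInv_fourier_eq f
  rw [h1] at h
  rw [← h]
  exact FourierInvPair.fourier_fourierInv_eq _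

/-- **The Fourier transform of a time-frequency shift.** -/
theorem fourier_tf (a b : ℝ) (f : H) : 𝓕 (tf a b f) = ee (a * b) • tf b (-a) (𝓕 f) := by
  have h1 : tf a b f = tf 0 b (tf a 0 f) := by
    rw [tf_tf]; simp [ee_zero]
  rw [h1, fourier_mod, fourier_shift, tf_tf]
  congr 2
  · ring
  · ring_nf

end

end Pool.Agent.Y306
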